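import Mathlib

set_option autoImplicit false

/-!
Book Ramsey numbers, part 4: the elementary inequality
`2 / 2^k ≤ ∏ y_i + (1/k) ∑ (1 - y_i)^k` for at most `k` numbers of `[0,1]`.
-/

namespace Pool.Agent.H68.Book

/-- Lower bound for `(2 + s) (1 - s)^k`. -/
lemma neg_aux {s : ℝ} (h0 : 0 ≤ s) (h1 : s ≤ 1) : ∀ k : ℕ, 2 ≤ k →
    2 + s - 2 * k * s ≤ (2 + s) * (1 - s) ^ k := by
  intro k hk
  induction k, hk using Nat.le_induction with
  | base =>
      push_cast
      nlinarith [mul_nonneg h0 (mul_nonneg h0 h0)]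
  | succ n hn ih =>
      have hn' : (2 : ℝ) ≤ n := by exact_mod_cast hn
      have h2 : (1 - s) * (2 + s - 2 * n * s) ≤ (1 - s) * ((2 + s) * (1 - s) ^ n) :=
        mul_le_mul_of_nonneg_left ih (by linarith)
      have h3 : (2 + s) * (1 - s) ^ (n + 1) = (1 - s) * ((2 + s) * (1 - s) ^ n) := by
        rw [pow_succ]; ring
      rw [h3]
      refine le_trans ?_ h2
      push_cast
      have h4 : 0 ≤ s ^ 2 * (2 * n - 1) := mul_nonneg (sq_nonneg _) (by linarith)
      nlinarith

/-- `-log (1 - w) ≤ (2 w - w^2) / (2 (1 - w))`. -/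
lemma log_aux {w : ℝ} (h0 : 0 ≤ w) (h1 : w < 1) :
    -Real.log (1 - w) ≤ (2 * w - w ^ 2) / (2 * (1 - w)) := by
  have hpos : 0 < 1 - w := by linarith
  set x : ℝ := -Real.log (1 - w) with hx
  have hx0 : 0 ≤ x := by
    have := Real.log_nonpos hpos.le (by linarith)
    linarith
  have h2 := Real.self_le_sinh_iff.2 hx0
  rw [Real.sinh_eq] at h2
  have h3 : Real.exp (-x) = 1 - w := by rw [hx, neg_neg, Real.exp_log hpos]
  have h4 : Real.exp x = (1 - w)⁻¹ := by
    rw [hx, Real.exp_neg, Real.exp_log hpos]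
  rw [h3, h4] at h2
  refine h2.trans (le_of_eq ?_)
  field_simp
  ring

/-- Second order Bernoulli. -/
lemma bern2 {w : ℝ} (h0 : 0 ≤ w) : ∀ k : ℕ,
    1 + k * w + (k * (k - 1) / 2) * w ^ 2 ≤ (1 + w) ^ k := by
  intro k
  induction k with
  | zero => simp
  | succ n ih =>
      have h2 : (1 + w) * (1 + n * w + (n * (n - 1) / 2) * w ^ 2) ≤ (1 + w) * (1 + w) ^ n :=
        mul_le_mul_of_nonneg_left ih (by linarith)
      have h3 : (1 + w) ^ (n + 1) = (1 + w) * (1 + w) ^ n := by rw [pow_succ]; ring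
      rw [h3]
      refine le_trans ?_ h2
      push_cast
      have h4 : 0 ≤ (n : ℝ) * (n - 1) / 2 * w ^ 3 := by
        rcases Nat.eq_zero_or_pos n with rfl | hn
        · simp
        · have : (1 : ℝ) ≤ n := by exact_mod_cast hn
          have : (0 : ℝ) ≤ n - 1 := by linarith
          positivity
      nlinarith

/-- The tangent inequality. -/
lemma tangent_ge5 {k : ℕ} (hk : 2 ≤ k) {w : ℝ} (h0 : -1 ≤ w) (h1 : w < 1)
    (h2 : (k - 1) * w ≤ k - 2) : 1 - k * Real.log (1 - w) ≤ (1 + w) ^ k := by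
  have hk' : (2 : ℝ) ≤ k := by exact_mod_cast hk
  rcases le_or_gt 0 w with hw | hw
  · have h3 := log_aux hw h1
    have h4 := bern2 hw k
    have hpos : 0 < 1 - w := by linarith
    have h5 : (k : ℝ) * ((2 * w - w ^ 2) / (2 * (1 - w))) ≤
        k * w + (k * (k - 1) / 2) * w ^ 2 := by
      rw [mul_div_assoc', div_le_iff₀ (by positivity)]
      have h6 : 0 ≤ (k : ℝ) * (w ^ 2 * ((k - 2) - (k - 1) * w)) :=
        mul_nonneg (by linarith) (mul_nonneg (sq_nonneg _) (by linarith))
      nlinarith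
    have h6 : (k : ℝ) * -Real.log (1 - w) ≤ k * ((2 * w - w ^ 2) / (2 * (1 - w))) :=
      mul_le_mul_of_nonneg_left h3 (by linarith)
    linarith
  · set s : ℝ := -w with hs
    have hs0 : 0 ≤ s := by linarith
    have hs1 : s ≤ 1 := by linarith
    have h3 := neg_aux hs0 hs1 k hk
    have h4 := Real.le_log_one_add_of_nonneg hs0
    have e1 : (1 - w) = 1 + s := by rw [hs]; ring
    have e2 : 1 + w = 1 - s := by rw [hs]; ring
    rw [e1, e2]
    have h5 : 1 - k * (2 * s / (s + 2)) ≤ (1 - s) ^ k := by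
      have hpos : 0 < s + 2 := by linarith
      have h6 : 1 - k * (2 * s / (s + 2)) = (2 + s - 2 * k * s) / (s + 2) := by
        field_simp
        ring
      rw [h6, div_le_iff₀ hpos]
      linarith
    have h6 : (k : ℝ) * (2 * s / (s + 2)) ≤ k * Real.log (1 + s) :=
      mul_le_mul_of_nonneg_left h4 (by linarith)
    linarith

/-- The tangent inequality for `k = 4`. -/
lemma tangent4 {w : ℝ} (h0 : -1 ≤ w) (h1 : w ≤ 69 / 100) :
    1 - 4 * Real.log (1 - w) ≤ (1 + w) ^ 4 := by
  rcases le_or_gt w 0 with hw | hw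
  · have := tangent_ge5 (k := 4) (by norm_num) h0 (by linarith) (by push_cast; linarith)
    simpa using this
  · have h3 := log_aux hw.le (by linarith)
    have hpos : 0 < 1 - w := by linarith
    have h5 : 4 * ((2 * w - w ^ 2) / (2 * (1 - w))) ≤ (1 + w) ^ 4 - 1 := by
      rw [mul_div_assoc', div_le_iff₀ (by positivity)]
      have h6 : 0 ≤ w ^ 2 * (4 - 2 * w - 3 * w ^ 2 - w ^ 3) := by
        apply mul_nonneg (sq_nonneg _)
        have h7 : w ^ 2 ≤ (69 / 100) ^ 2 := pow_le_pow_left₀ hw.le h1 2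
        have h8 : w ^ 3 ≤ (69 / 100) ^ 3 := pow_le_pow_left₀ hw.le h1 3
        norm_num at h7 h8
        linarith
      nlinarith
    linarith

/-- From the tangent inequality for all entries to the inequality. -/
lemma ineq_of_tangent {k : ℕ} (hk : 1 ≤ k) : ∀ l : List ℝ, (∀ y ∈ l, 0 < y) →
    (∀ y ∈ l, (1 - k * Real.log (2 * y)) / 2 ^ k ≤ (1 - y) ^ k) →
    (l.length - k * (l.length * Real.log 2 + Real.log l.prod)) / 2 ^ k ≤
      (l.map (fun y => (1 - y) ^ k)).sum := by
  intro l
  induction l with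
  | nil => intro _ _; simp
  | cons y l ih =>
      intro hpos htan
      have h1 := ih (fun z hz => hpos z (by simp [hz])) (fun z hz => htan z (by simp [hz]))
      have h2 := htan y (by simp)
      have hy : 0 < y := hpos y (by simp)
      have hprod : 0 < l.prod := List.prod_pos (fun z hz => hpos z (by simp [hz]))
      rw [List.map_cons, List.sum_cons, List.prod_cons, List.length_cons,
        Real.log_mul hy.ne' hprod.ne']
      rw [Real.log_mul (by norm_num) hy.ne'] at h2
      have h3 : ((((l.length + 1 : ℕ) : ℝ) - k * ((((l.length + 1 : ℕ) : ℝ)) * Real.log 2 +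
          (Real.log y + Real.log l.prod))) / 2 ^ k : ℝ) =
          (1 - k * (Real.log 2 + Real.log y)) / 2 ^ k +
          (l.length - k * (l.length * Real.log 2 + Real.log l.prod)) / 2 ^ k := by
        push_cast
        ring
      rw [h3]
      exact add_le_add h2 h1

lemma two_pow_aux : ∀ k : ℕ, 5 ≤ k → (k : ℝ) * (2 / 2 ^ k) ≤ 5 / 16 := by
  intro k hk
  induction k, hk using Nat.le_induction with
  | base => norm_num
  | succ n hn ih =>
      have hn' : (5 : ℝ) ≤ n := by exact_mod_cast hn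
      refine le_trans ?_ ih
      rw [pow_succ]
      have h1 : ((n + 1 : ℕ) : ℝ) * (2 / (2 ^ n * 2)) = (((n : ℝ) + 1) / 2) * (2 / 2 ^ n) := by
        push_cast
        field_simp
      rw [h1]
      apply mul_le_mul_of_nonneg_right _ (by positivity)
      linarith

/-- A small entry settles the inequality. -/
lemma ineq_of_small {k : ℕ} (hk : 1 ≤ k) {l : List ℝ} (h0 : ∀ y ∈ l, 0 ≤ y)
    (h1 : ∀ y ∈ l, y ≤ 1) {y : ℝ} (hy : y ∈ l) (hs : k * (2 / 2 ^ k) ≤ (1 - y) ^ k) :
    2 / 2 ^ k ≤ l.prod + (l.map (fun y => (1 - y) ^ k)).sum / k := by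
  have h2 : 0 ≤ l.prod := List.prod_nonneg h0
  have h3 : (1 - y) ^ k ≤ (l.map (fun y => (1 - y) ^ k)).sum := by
    apply List.single_le_sum
    · intro x hx
      obtain ⟨z, hz, rfl⟩ := List.mem_map.1 hx
      exact pow_nonneg (by linarith [h1 z hz]) _
    · exact List.mem_map.2 ⟨y, hy, rfl⟩
  have hk0 : (0 : ℝ) < k := by exact_mod_cast hk
  have h4 : (2 : ℝ) / 2 ^ k ≤ (l.map (fun y => (1 - y) ^ k)).sum / k := by
    rw [le_div_iff₀ hk0]
    linarith
  linarith

/-- The inequality when all entries satisfy the tangent inequality. -/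
lemma ineq_all {k : ℕ} (hk : 1 ≤ k) {l : List ℝ} (hlen : l.length = k) (hpos : ∀ y ∈ l, 0 < y)
    (htan : ∀ y ∈ l, (1 - k * Real.log (2 * y)) / 2 ^ k ≤ (1 - y) ^ k) :
    2 / 2 ^ k ≤ l.prod + (l.map (fun y => (1 - y) ^ k)).sum / k := by
  have h1 := ineq_of_tangent hk l hpos htan
  rw [hlen] at h1
  have hk0 : (0 : ℝ) < k := by exact_mod_cast hk
  have hprod : 0 < l.prod := List.prod_pos hpos
  have h2 : (1 - (k * Real.log 2 + Real.log l.prod)) / 2 ^ k ≤
      (l.map (fun y => (1 - y) ^ k)).sum / k := by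
    rw [le_div_iff₀ hk0]
    refine le_trans (le_of_eq ?_) h1
    ring
  have h3 : (1 + (k * Real.log 2 + Real.log l.prod)) / 2 ^ k ≤ l.prod := by
    rw [div_le_iff₀ (by positivity)]
    have h4 := Real.add_one_le_exp (k * Real.log 2 + Real.log l.prod)
    have h5 : Real.exp (k * Real.log 2) = 2 ^ k := by
      rw [← Real.log_pow, Real.exp_log (by positivity)]
    rw [Real.exp_add, Real.exp_log hprod, h5] at h4
    linarith
  calc (2 : ℝ) / 2 ^ k = (1 + (k * Real.log 2 + Real.log l.prod)) / 2 ^ k +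
        (1 - (k * Real.log 2 + Real.log l.prod)) / 2 ^ k := by ring
    _ ≤ _ := add_le_add h3 h2

lemma ineq_eq {k : ℕ} (hk : 1 ≤ k) {l : List ℝ} (hlen : l.length = k)
    (h0 : ∀ y ∈ l, 0 ≤ y) (h1 : ∀ y ∈ l, y ≤ 1) :
    2 / 2 ^ k ≤ l.prod + (l.map (fun y => (1 - y) ^ k)).sum / k := by
  by_cases hsmall : ∃ y ∈ l, k * (2 / 2 ^ k) ≤ (1 - y) ^ k
  · obtain ⟨y, hy, hs⟩ := hsmall
    exact ineq_of_small hk h0 h1 hy hs
  push Not at hsmall
  -- auxiliary: from the tangent inequality in `w = 1 - 2 y`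
  have conv : ∀ y : ℝ, 0 < y → 1 - k * Real.log (1 - (1 - 2 * y)) ≤ (1 + (1 - 2 * y)) ^ k →
      (1 - k * Real.log (2 * y)) / 2 ^ k ≤ (1 - y) ^ k := by
    intro y hy h
    rw [div_le_iff₀ (by positivity), ← mul_pow]
    have e1 : 1 - (1 - 2 * y) = 2 * y := by ring
    have e2 : 1 + (1 - 2 * y) = (1 - y) * 2 := by ring
    rwa [e1, e2] at h
  rcases Nat.lt_or_ge k 4 with hk4 | hk4
  · interval_cases k
    · match l, hlen with
      | [a], _ =>
        simp
    · match l, hlen with
      | [a, b], _ =>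
        simp only [List.prod_cons, List.prod_nil, List.map_cons, List.map_nil, List.sum_cons,
          List.sum_nil]
        push_cast
        nlinarith [sq_nonneg (a + b - 1)]
    · match l, hlen with
      | [a, b, c], _ =>
        have ha0 := h0 a (by simp)
        have hb0 := h0 b (by simp)
        have hc0 := h0 c (by simp)
        have ha1 := h1 a (by simp)
        have hb1 := h1 b (by simp)
        have hc1 := h1 c (by simp)
        simp only [List.prod_cons, List.prod_nil, List.map_cons, List.map_nil, List.sum_cons,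
          List.sum_nil]
        push_cast
        set p : ℝ := a + b + c with hp
        set q : ℝ := a * b + b * c + c * a with hq
        have e : a * (b * (c * 1)) + ((1 - a) ^ 3 + ((1 - b) ^ 3 + ((1 - c) ^ 3 + 0))) / 3 =
            1 - p + p ^ 2 - p ^ 3 / 3 - q * (2 - p) := by
          rw [hp, hq]; ring
        rw [e]
        rcases le_or_gt p 2 with hp2 | hp2
        · have hq1 : q ≤ p ^ 2 / 3 := by
            rw [hp, hq]
            nlinarith [sq_nonneg (a - b), sq_nonneg (b - c), sq_nonneg (c - a)]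
          have h5 : q * (2 - p) ≤ p ^ 2 / 3 * (2 - p) :=
            mul_le_mul_of_nonneg_right hq1 (by linarith)
          nlinarith [sq_nonneg (p - 3 / 2)]
        · have hq1 : 2 * p - 3 ≤ q := by
            rw [hp, hq]
            nlinarith [mul_nonneg (sub_nonneg.2 ha1) (sub_nonneg.2 hb1),
              mul_nonneg (sub_nonneg.2 hb1) (sub_nonneg.2 hc1),
              mul_nonneg (sub_nonneg.2 ha1) (sub_nonneg.2 hc1)]
          have h5 : (2 * p - 3) * (p - 2) ≤ q * (p - 2) :=
            mul_le_mul_of_nonneg_right hq1 (by linarith)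
          have hp3 : p ≤ 3 := by rw [hp]; linarith
          have h6 : 0 ≤ (p - 2) ^ 2 * (3 - p) := mul_nonneg (sq_nonneg _) (by linarith)
          nlinarith [sq_nonneg (p - 2)]
  rcases Nat.lt_or_ge k 5 with hk5 | hk5
  · have hk' : k = 4 := by omega
    subst hk'
    have hbig : ∀ y ∈ l, 31 / 200 < y := by
      intro y hy
      by_contra hcon
      push Not at hcon
      have h2 := hsmall y hy
      have h3 : (1 - 31 / 200 : ℝ) ^ 4 ≤ (1 - y) ^ 4 :=
        pow_le_pow_left₀ (by norm_num) (by linarith) 4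
      norm_num at h2 h3
      linarith
    apply ineq_all (by norm_num) hlen
    · intro y hy; linarith [hbig y hy]
    · intro y hy
      have hy1 := hbig y hy
      apply conv y (by linarith)
      have := tangent4 (w := 1 - 2 * y) (by linarith [h1 y hy]) (by linarith)
      simpa using this
  · have hkR : (5 : ℝ) ≤ k := by exact_mod_cast hk5
    have hbig : ∀ y ∈ l, 1 / (2 * ((k : ℝ) - 1)) ≤ y := by
      intro y hy
      by_contra hcon
      push Not at hcon
      have h2 := hsmall y hy
      have h3 : 1 + (k : ℝ) * (-y) ≤ (1 + (-y)) ^ k :=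
        one_add_mul_le_pow (by linarith [h1 y hy]) k
      have h4 : (k : ℝ) * y ≤ k * (1 / (2 * ((k : ℝ) - 1))) :=
        mul_le_mul_of_nonneg_left hcon.le (by linarith)
      have h5 : (k : ℝ) * (1 / (2 * ((k : ℝ) - 1))) ≤ 5 / 8 := by
        rw [mul_one_div, div_le_iff₀ (by linarith)]
        linarith
      have h6 := two_pow_aux k hk5
      have e1 : 1 + -y = 1 - y := by ring
      rw [e1] at h3
      -- improve: h2 : (1-y)^k < k * (2/2^k) ≤ 5/16 and (1-y)^k ≥ 1 - 5/8 = 3/8
      linarith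
    have hpos : ∀ y ∈ l, 0 < y := fun y hy =>
      lt_of_lt_of_le (by
        have : (0 : ℝ) < k - 1 := by linarith
        positivity) (hbig y hy)
    apply ineq_all (by omega) hlen hpos
    intro y hy
    apply conv y (hpos y hy)
    apply tangent_ge5 (by omega)
    · linarith [h1 y hy]
    · linarith [hpos y hy]
    · have h2 := hbig y hy
      rw [div_le_iff₀ (by linarith)] at h2
      nlinarith

/-- **The inequality.** -/
theorem ineq {k : ℕ} (hk : 1 ≤ k) {l : List ℝ} (hlen : l.length ≤ k)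
    (h0 : ∀ y ∈ l, 0 ≤ y) (h1 : ∀ y ∈ l, y ≤ 1) :
    2 / 2 ^ k ≤ l.prod + (l.map (fun y => (1 - y) ^ k)).sum / k := by
  have h2 := ineq_eq hk (l := l ++ List.replicate (k - l.length) 1) (by simp; omega)
    (by
      intro y hy
      rcases List.mem_append.1 hy with h | h
      · exact h0 y h
      · rw [List.eq_of_mem_replicate h]; norm_num)
    (by
      intro y hy
      rcases List.mem_append.1 hy with h | h
      · exact h1 y h
      · rw [List.eq_of_mem_replicate h])
  have e1 : (l ++ List.replicate (k - l.length) (1 : ℝ)).prod = l.prod := by simp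
  have e2 : ((l ++ List.replicate (k - l.length) (1 : ℝ)).map (fun y => (1 - y) ^ k)).sum =
      (l.map (fun y => (1 - y) ^ k)).sum := by
    rw [List.map_append, List.sum_append, List.map_replicate]
    have : ((1 : ℝ) - 1) ^ k = 0 := by
      rw [sub_self]
      exact zero_pow (by omega)
    rw [this]
    simp
  rwa [e1, e2] at h2

end Pool.Agent.H68.Book
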