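import Mathlib

set_option autoImplicit false
set_option linter.unusedSectionVars false

/-!
Book Ramsey numbers, part 1: stable sets (entropy maximisation) for a kernel `c`.
-/

namespace Pool.Agent.H68.Book

open Finset

variable {V : Type*} [Fintype V] [DecidableEq V]

/-- Average of `c v ·` over `W`. -/
noncomputable def dens (c : V → V → ℝ) (W : Finset V) (v : V) : ℝ :=
  (∑ w ∈ W, c v w) / W.card

/-- The energy of `W`. -/
noncomputable def energy (c : V → V → ℝ) (W : Finset V) : ℝ :=
  (∑ v, dens c W v ^ 2) / Fintype.card V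

/-- `W` is stable: the degree vectors of its subsets are close to its own one. -/
def Stab (c : V → V → ℝ) (lam : ℝ) (W : Finset V) : Prop :=
  W.Nonempty ∧ ∀ ν : Finset V, ν ⊆ W → ν.Nonempty →
    ∑ v, (dens c ν v - dens c W v) ^ 2 ≤
      Fintype.card V * (lam * (1 + Real.log ((W.card : ℝ) / ν.card)))

lemma dens_nonneg {c : V → V → ℝ} (h0 : ∀ v w, 0 ≤ c v w) (W : Finset V) (v : V) :
    0 ≤ dens c W v :=
  div_nonneg (sum_nonneg fun w _ => h0 v w) (Nat.cast_nonneg _)

lemma dens_le_one {c : V → V → ℝ} (h1 : ∀ v w, c v w ≤ 1) (W : Finset V) (v : V) :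
    dens c W v ≤ 1 := by
  unfold dens
  apply div_le_one_of_le₀ _ (Nat.cast_nonneg _)
  calc ∑ w ∈ W, c v w ≤ ∑ _w ∈ W, (1 : ℝ) := sum_le_sum fun w _ => h1 v w
    _ = W.card := by simp

lemma card_mul_dens (c : V → V → ℝ) (W : Finset V) (v : V) :
    (W.card : ℝ) * dens c W v = ∑ w ∈ W, c v w := by
  unfold dens
  rcases W.eq_empty_or_nonempty with rfl | h
  · simp
  · have : (W.card : ℝ) ≠ 0 := by
      have := h.card_pos
      positivity
    field_simp

lemma dens_compl {c c' : V → V → ℝ} (h : ∀ v w, c v w + c' v w = 1) {W : Finset V}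
    (hW : W.Nonempty) (v : V) : dens c' W v = 1 - dens c W v := by
  unfold dens
  have h1 : ∑ w ∈ W, c' v w = W.card - ∑ w ∈ W, c v w := by
    have : ∑ w ∈ W, (c v w + c' v w) = W.card := by simp [h]
    rw [sum_add_distrib] at this
    linarith
  have h2 : (W.card : ℝ) ≠ 0 := by
    have := hW.card_pos
    positivity
  rw [h1]
  field_simp

lemma Stab.compl {c c' : V → V → ℝ} (h : ∀ v w, c v w + c' v w = 1) {lam : ℝ} {W : Finset V}
    (hW : Stab c lam W) : Stab c' lam W := by
  refine ⟨hW.1, fun ν hν hne => ?_⟩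
  have := hW.2 ν hν hne
  refine le_trans (le_of_eq ?_) this
  refine sum_congr rfl fun v _ => ?_
  rw [dens_compl h hne, dens_compl h hW.1]
  ring

lemma energy_nonneg (c : V → V → ℝ) (W : Finset V) : 0 ≤ energy c W :=
  div_nonneg (sum_nonneg fun _ _ => sq_nonneg _) (Nat.cast_nonneg _)

lemma energy_le_one {c : V → V → ℝ} (h0 : ∀ v w, 0 ≤ c v w) (h1 : ∀ v w, c v w ≤ 1)
    (W : Finset V) : energy c W ≤ 1 := by
  unfold energy
  apply div_le_one_of_le₀ _ (Nat.cast_nonneg _)
  calc ∑ v, dens c W v ^ 2 ≤ ∑ _v : V, (1 : ℝ) := by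
        refine sum_le_sum fun v _ => ?_
        have := dens_nonneg h0 W v
        have := dens_le_one h1 W v
        nlinarith
    _ = Fintype.card V := by simp

/-- The key estimate: maximality of energy plus entropy gives stability. -/
lemma stab_of_max (c : V → V → ℝ) {lam : ℝ} (hlam : 0 ≤ lam) {W : Finset V} (hW : W.Nonempty)
    (hmax : ∀ ν : Finset V, ν ⊆ W → ν.Nonempty →
      energy c ν + lam * Real.log ν.card ≤ energy c W + lam * Real.log W.card) :
    Stab c lam W := by
  refine ⟨hW, fun ν hν hne => ?_⟩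
  have hNpos : (0 : ℝ) < Fintype.card V := by
    obtain ⟨v, _⟩ := hW
    exact_mod_cast Fintype.card_pos_iff.2 ⟨v⟩
  rcases (W \ ν).eq_empty_or_nonempty with h0 | hne'
  · have : ν = W := Subset.antisymm hν (sdiff_eq_empty_iff_subset.1 h0)
    subst this
    have h1 : (ν.card : ℝ) / ν.card = 1 := by
      have := hne.card_pos
      field_simp
    rw [h1]
    simp
    positivity
  · have ha : (0 : ℝ) < ν.card := by exact_mod_cast hne.card_pos
    have hb : (0 : ℝ) < (W \ ν).card := by exact_mod_cast hne'.card_pos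
    have hn : (W.card : ℝ) = ν.card + (W \ ν).card := by
      have := card_sdiff_add_card_eq_card hν
      have h2 : ((W \ ν).card : ℝ) + ν.card = W.card := by exact_mod_cast this
      linarith
    set a : ℝ := (ν.card : ℝ) with hadef
    set b : ℝ := ((W \ ν).card : ℝ) with hbdef
    set n : ℝ := (W.card : ℝ) with hndef
    have hnpos : 0 < n := by rw [hn]; positivity
    -- pointwise identity
    have hpt : ∀ v, a * (dens c ν v - dens c W v) ^ 2 ≤
        a * dens c ν v ^ 2 + b * dens c (W \ ν) v ^ 2 - n * dens c W v ^ 2 := by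
      intro v
      have h1 : n * dens c W v = a * dens c ν v + b * dens c (W \ ν) v := by
        rw [hndef, hadef, hbdef, card_mul_dens, card_mul_dens, card_mul_dens, add_comm]
        exact (sum_sdiff hν).symm
      set x := dens c ν v
      set y := dens c (W \ ν) v
      set z := dens c W v
      have hz : z = (a * x + b * y) / n := by
        field_simp
        linarith
      rw [hz, hn]
      have hab : (a + b) ≠ 0 := by positivity
      have key : a * x ^ 2 + b * y ^ 2 - (a + b) * ((a * x + b * y) / (a + b)) ^ 2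
          - a * (x - (a * x + b * y) / (a + b)) ^ 2 = a ^ 2 * b * (x - y) ^ 2 / (a + b) ^ 2 := by
        field_simp
        ring
      have : 0 ≤ a ^ 2 * b * (x - y) ^ 2 / (a + b) ^ 2 := by positivity
      linarith
    have hsum : a * (∑ v, (dens c ν v - dens c W v) ^ 2) ≤
        Fintype.card V * (a * energy c ν + b * energy c (W \ ν) - n * energy c W) := by
      have h2 : ∀ X : Finset V, (Fintype.card V : ℝ) * energy c X = ∑ v, dens c X v ^ 2 := by
        intro X
        unfold energy
        field_simp
      calc a * (∑ v, (dens c ν v - dens c W v) ^ 2)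
          = ∑ v, a * (dens c ν v - dens c W v) ^ 2 := by rw [mul_sum]
        _ ≤ ∑ v, (a * dens c ν v ^ 2 + b * dens c (W \ ν) v ^ 2 - n * dens c W v ^ 2) :=
            sum_le_sum fun v _ => hpt v
        _ = a * ∑ v, dens c ν v ^ 2 + b * ∑ v, dens c (W \ ν) v ^ 2
            - n * ∑ v, dens c W v ^ 2 := by
            rw [sum_sub_distrib, sum_add_distrib, mul_sum, mul_sum, mul_sum]
        _ = _ := by
            rw [← h2, ← h2, ← h2]
            ring
    have hm1 := hmax ν hν hne
    have hm2 := hmax (W \ ν) sdiff_subset hne'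
    rw [← hadef] at hm1
    rw [← hbdef] at hm2
    have hlog1 : Real.log n - Real.log a = Real.log (n / a) :=
      (Real.log_div hnpos.ne' ha.ne').symm
    have hlog2 : b * (Real.log n - Real.log b) ≤ a := by
      rw [← Real.log_div hnpos.ne' hb.ne']
      have := Real.log_le_sub_one_of_pos (show 0 < n / b by positivity)
      calc b * Real.log (n / b) ≤ b * (n / b - 1) := mul_le_mul_of_nonneg_left this hb.le
        _ = a := by field_simp; linarith
    have hen : a * energy c ν + b * energy c (W \ ν) - n * energy c W ≤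
        a * (lam * (1 + Real.log (n / a))) := by
      rw [← hlog1, hn]
      rw [hn] at hm1 hm2 hlog2
      have e1 : a * energy c ν ≤ a * (energy c W + lam * Real.log (a + b)
          - lam * Real.log a) := mul_le_mul_of_nonneg_left (by linarith) ha.le
      have e2 : b * energy c (W \ ν) ≤ b * (energy c W + lam * Real.log (a + b)
          - lam * Real.log b) := mul_le_mul_of_nonneg_left (by linarith) hb.le
      have e3 : lam * (b * (Real.log (a + b) - Real.log b)) ≤ lam * a :=
        mul_le_mul_of_nonneg_left hlog2 hlam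
      nlinarith [e1, e2, e3]
    have hfin : a * (∑ v, (dens c ν v - dens c W v) ^ 2) ≤
        a * (Fintype.card V * (lam * (1 + Real.log (n / a)))) := by
      calc _ ≤ _ := hsum
        _ ≤ Fintype.card V * (a * (lam * (1 + Real.log (n / a)))) :=
            mul_le_mul_of_nonneg_left hen hNpos.le
        _ = _ := by ring
    exact le_of_mul_le_mul_left hfin ha

/-- Every nonempty set contains a large stable set. -/
lemma exists_stab {c : V → V → ℝ} (h0 : ∀ v w, 0 ≤ c v w) (h1 : ∀ v w, c v w ≤ 1)
    {lam : ℝ} (hlam : 0 < lam) {U : Finset V} (hU : U.Nonempty) :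
    ∃ W : Finset V, W ⊆ U ∧ Stab c lam W ∧ Real.exp (-(1 / lam)) * U.card ≤ W.card := by
  obtain ⟨W, hWmem, hWmax⟩ := (U.powerset.filter (fun X => X.Nonempty)).exists_max_image
    (fun X => energy c X + lam * Real.log X.card) ⟨U, by simp [hU]⟩
  rw [mem_filter, mem_powerset] at hWmem
  refine ⟨W, hWmem.1, stab_of_max c hlam.le hWmem.2 fun ν hν hne => ?_, ?_⟩
  · exact hWmax ν (by rw [mem_filter, mem_powerset]; exact ⟨hν.trans hWmem.1, hne⟩)
  · have h2 := hWmax U (by rw [mem_filter, mem_powerset]; exact ⟨Subset.rfl, hU⟩)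
    have h3 := energy_nonneg c U
    have h4 := energy_le_one h0 h1 W
    have hUpos : (0 : ℝ) < U.card := by exact_mod_cast hU.card_pos
    have hWpos : (0 : ℝ) < W.card := by exact_mod_cast hWmem.2.card_pos
    have h5 : -(1 / lam) + Real.log U.card ≤ Real.log W.card := by
      have h6 : lam * Real.log U.card ≤ 1 + lam * Real.log W.card := by linarith
      have h7 : Real.log U.card ≤ 1 / lam + Real.log W.card := by
        rw [← mul_le_mul_iff_right₀ hlam]
        calc lam * Real.log U.card ≤ 1 + lam * Real.log W.card := h6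
          _ = lam * (1 / lam + Real.log W.card) := by field_simp
      linarith
    calc Real.exp (-(1 / lam)) * U.card = Real.exp (-(1 / lam) + Real.log U.card) := by
          rw [Real.exp_add, Real.exp_log hUpos]
      _ ≤ Real.exp (Real.log W.card) := Real.exp_le_exp.2 h5
      _ = W.card := Real.exp_log hWpos

/-- `L¹` form of stability. -/
lemma Stab.l1 {c : V → V → ℝ} {lam : ℝ} (hlam : 0 ≤ lam) {W : Finset V} (hW : Stab c lam W)
    {ν : Finset V} (hν : ν ⊆ W) {p : ℝ} (hp : 0 < p) (hcard : p * W.card ≤ ν.card) :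
    ∑ v, |dens c ν v - dens c W v| ≤
      Fintype.card V * Real.sqrt (lam * (1 + Real.log (1 / p))) := by
  have hWpos : (0 : ℝ) < W.card := by exact_mod_cast hW.1.card_pos
  have hνpos : (0 : ℝ) < ν.card := lt_of_lt_of_le (by positivity) hcard
  have hne : ν.Nonempty := by
    rw [← card_pos]
    exact_mod_cast hνpos
  have h1 := hW.2 ν hν hne
  have h2 : Real.log ((W.card : ℝ) / ν.card) ≤ Real.log (1 / p) := by
    apply Real.log_le_log (by positivity)
    rw [div_le_div_iff₀ hνpos hp]
    linarith
  have h3 : ∑ v, (dens c ν v - dens c W v) ^ 2 ≤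
      Fintype.card V * (lam * (1 + Real.log (1 / p))) := by
    refine h1.trans ?_
    apply mul_le_mul_of_nonneg_left _ (Nat.cast_nonneg _)
    apply mul_le_mul_of_nonneg_left _ hlam
    linarith
  have h4 : (∑ v, |dens c ν v - dens c W v|) ^ 2 ≤
      Fintype.card V * ∑ v, |dens c ν v - dens c W v| ^ 2 := by
    have := sq_sum_le_card_mul_sum_sq (s := (univ : Finset V))
      (f := fun v => |dens c ν v - dens c W v|)
    simpa using this
  have h5 : (∑ v, |dens c ν v - dens c W v|) ^ 2 ≤
      (Fintype.card V * Real.sqrt (lam * (1 + Real.log (1 / p)))) ^ 2 := by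
    have h6 : 0 ≤ lam * (1 + Real.log (1 / p)) := by
      have h7 : 0 ≤ ∑ v, (dens c ν v - dens c W v) ^ 2 := sum_nonneg fun _ _ => sq_nonneg _
      have h8 : (0 : ℝ) < Fintype.card V := by
        obtain ⟨v, _⟩ := hW.1
        exact_mod_cast Fintype.card_pos_iff.2 ⟨v⟩
      by_contra hneg
      push Not at hneg
      have := mul_neg_of_pos_of_neg h8 hneg
      linarith
    rw [mul_pow, Real.sq_sqrt h6]
    calc _ ≤ _ := h4
      _ = Fintype.card V * ∑ v, (dens c ν v - dens c W v) ^ 2 := by simp [sq_abs]
      _ ≤ Fintype.card V * (Fintype.card V * (lam * (1 + Real.log (1 / p)))) :=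
          mul_le_mul_of_nonneg_left h3 (Nat.cast_nonneg _)
      _ = _ := by ring
  exact le_of_sq_le_sq h5 (by positivity)

end Pool.Agent.H68.Book
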