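import Mathlib
import Pool.Agent.H68.Book.Stab

set_option autoImplicit false
set_option linter.unusedSectionVars false
set_option linter.unusedVariables false

/-!
Book Ramsey numbers, part 2: iterated sums over products of sets and the peeling lemma.
-/

namespace Pool.Agent.H68.Book

open Finset

variable {V : Type*} [Fintype V] [DecidableEq V]

/-- Iterated sum of a function of lists over a product of finite sets. -/
def isum : List (Finset V) → (List V → ℝ) → ℝ
  | [], f => f []
  | W :: Ws, f => ∑ u ∈ W, isum Ws (fun l => f (u :: l))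

/-- Product of the cardinalities. -/
def vol : List (Finset V) → ℝ
  | [] => 1
  | W :: Ws => (W.card : ℝ) * vol Ws

/-- Indicator of a proposition. -/
noncomputable def ind (P : Prop) : ℝ := by
  classical
  exact if P then 1 else 0

lemma ind_nonneg (P : Prop) : 0 ≤ ind P := by
  unfold ind; split_ifs <;> norm_num

lemma ind_le_one (P : Prop) : ind P ≤ 1 := by
  unfold ind; split_ifs <;> norm_num

lemma ind_of {P : Prop} (h : P) : ind P = 1 := by
  unfold ind; simp [h]

lemma ind_of_not {P : Prop} (h : ¬ P) : ind P = 0 := by
  unfold ind; simp [h]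

lemma vol_nonneg : ∀ Ws : List (Finset V), 0 ≤ vol Ws
  | [] => zero_le_one
  | W :: Ws => mul_nonneg (Nat.cast_nonneg _) (vol_nonneg Ws)

lemma vol_pos : ∀ Ws : List (Finset V), (∀ W ∈ Ws, W.Nonempty) → 0 < vol Ws
  | [], _ => zero_lt_one
  | W :: Ws, h => mul_pos (by exact_mod_cast (h W (by simp)).card_pos)
      (vol_pos Ws fun X hX => h X (by simp [hX]))

lemma isum_mono : ∀ (Ws : List (Finset V)) (f g : List V → ℝ), (∀ l, f l ≤ g l) →
    isum Ws f ≤ isum Ws g
  | [], f, g, h => h []
  | W :: Ws, f, g, h => sum_le_sum fun u _ => isum_mono Ws _ _ fun l => h (u :: l)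

lemma isum_add : ∀ (Ws : List (Finset V)) (f g : List V → ℝ),
    isum Ws (fun l => f l + g l) = isum Ws f + isum Ws g
  | [], f, g => rfl
  | W :: Ws, f, g => by
      simp only [isum]
      rw [← sum_add_distrib]
      exact sum_congr rfl fun u _ => isum_add Ws _ _

lemma isum_const_mul : ∀ (Ws : List (Finset V)) (a : ℝ) (f : List V → ℝ),
    isum Ws (fun l => a * f l) = a * isum Ws f
  | [], a, f => rfl
  | W :: Ws, a, f => by
      simp only [isum]
      rw [mul_sum]
      exact sum_congr rfl fun u _ => isum_const_mul Ws _ _

lemma isum_zero : ∀ (Ws : List (Finset V)), isum Ws (fun _ => (0 : ℝ)) = 0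
  | [] => rfl
  | W :: Ws => by
      simp only [isum, isum_zero Ws, sum_const_zero]

lemma isum_nonneg (Ws : List (Finset V)) (f : List V → ℝ) (h : ∀ l, 0 ≤ f l) :
    0 ≤ isum Ws f := by
  have := isum_mono Ws (fun _ => 0) f h
  rwa [isum_zero] at this

lemma isum_sum {ι : Type*} (Ws : List (Finset V)) (s : Finset ι) (f : ι → List V → ℝ) :
    isum Ws (fun l => ∑ i ∈ s, f i l) = ∑ i ∈ s, isum Ws (f i) := by
  classical
  induction s using Finset.induction_on with
  | empty => simp [isum_zero]
  | insert a s ha ih =>
      rw [sum_insert ha, ← ih, ← isum_add]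
      congr 1
      ext l
      rw [sum_insert ha]

lemma isum_one : ∀ (Ws : List (Finset V)), isum Ws (fun _ => (1 : ℝ)) = vol Ws
  | [] => rfl
  | W :: Ws => by
      simp only [isum, isum_one Ws, sum_const, nsmul_eq_mul, vol]

lemma isum_le_vol (Ws : List (Finset V)) (f : List V → ℝ) (h : ∀ l, f l ≤ 1) :
    isum Ws f ≤ vol Ws := by
  rw [← isum_one]
  exact isum_mono Ws _ _ h

/-- Monotonicity in the sets. -/
lemma isum_subset : ∀ (n : ℕ) (X Y : Finset V) (f : List V → ℝ), X ⊆ Y → (∀ l, 0 ≤ f l) →
    isum (List.replicate n X) f ≤ isum (List.replicate n Y) f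
  | 0, X, Y, f, _, _ => le_of_eq rfl
  | n + 1, X, Y, f, h, hf => by
      simp only [List.replicate_succ, isum]
      calc ∑ u ∈ X, isum (List.replicate n X) (fun l => f (u :: l))
          ≤ ∑ u ∈ X, isum (List.replicate n Y) (fun l => f (u :: l)) :=
            sum_le_sum fun u _ => isum_subset n X Y _ h fun l => hf _
        _ ≤ ∑ u ∈ Y, isum (List.replicate n Y) (fun l => f (u :: l)) :=
            sum_le_sum_of_subset_of_nonneg h fun u _ _ => isum_nonneg _ _ fun l => hf _

lemma vol_replicate (n : ℕ) (X : Finset V) : vol (List.replicate n X) = (X.card : ℝ) ^ n := by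
  induction n with
  | zero => simp [vol]
  | succ n ih => rw [List.replicate_succ, vol, ih, pow_succ]; ring

/-- The product of the densities of the sets of a list. -/
noncomputable def dprod (c : V → V → ℝ) (Ws : List (Finset V)) (v : V) : ℝ :=
  (Ws.map fun W => dens c W v).prod

/-- The product of the kernel values of the vertices of a list. -/
noncomputable def cprod (c : V → V → ℝ) (l : List V) (v : V) : ℝ :=
  (l.map fun u => c v u).prod

lemma dprod_nonneg {c : V → V → ℝ} (h0 : ∀ v w, 0 ≤ c v w) (Ws : List (Finset V)) (v : V) :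
    0 ≤ dprod c Ws v := by
  unfold dprod
  induction Ws with
  | nil => simp
  | cons W Ws ih =>
      rw [List.map_cons, List.prod_cons]
      exact mul_nonneg (dens_nonneg h0 W v) ih

lemma dprod_le_one {c : V → V → ℝ} (h0 : ∀ v w, 0 ≤ c v w) (h1 : ∀ v w, c v w ≤ 1)
    (Ws : List (Finset V)) (v : V) : dprod c Ws v ≤ 1 := by
  induction Ws with
  | nil => simp [dprod]
  | cons W Ws ih =>
      have h2 := dprod_nonneg h0 Ws v
      unfold dprod at *
      rw [List.map_cons, List.prod_cons]
      exact mul_le_one₀ (dens_le_one h1 W v) h2 ih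

/-- **Peeling lemma.** -/
lemma peel {c : V → V → ℝ} (h0 : ∀ v w, 0 ≤ c v w) (h1 : ∀ v w, c v w ≤ 1) {lam : ℝ}
    (hlam : 0 ≤ lam) : ∀ (Ws : List (Finset V)) (P : List V → Prop) (F : V → ℝ) (p : ℝ),
    (∀ W ∈ Ws, Stab c lam W) → (∀ v, 0 ≤ F v) → (∀ v, F v ≤ 1) → 0 < p →
    p * vol Ws ≤ isum Ws (fun l => ind (P l)) →
    ∃ l : List V, l.length = Ws.length ∧ P l ∧
      ∑ v, F v * dprod c Ws v - Ws.length * (Fintype.card V *
        Real.sqrt (lam * (1 + Real.log (2 ^ Ws.length / p)))) ≤ ∑ v, F v * cprod c l v
  | [], P, F, p, _, _, _, hp, hS => by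
      refine ⟨[], rfl, ?_, ?_⟩
      · by_contra hP
        simp only [isum, vol] at hS
        rw [ind_of_not hP] at hS
        linarith
      · simp [dprod, cprod]
  | W :: Ws, P, F, p, hW, hF0, hF1, hp, hS => by
      classical
      have hWs : ∀ X ∈ Ws, Stab c lam X := fun X hX => hW X (by simp [hX])
      have hWst : Stab c lam W := hW W (by simp)
      have hvol : 0 < vol Ws := vol_pos Ws fun X hX => (hWs X hX).1
      have hWpos : (0 : ℝ) < W.card := by exact_mod_cast hWst.1.card_pos
      set m : ℝ := (Ws.length : ℝ) with hm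
      set N : ℝ := (Fintype.card V : ℝ) with hN
      -- the popular first vertices
      set A := W.filter (fun u => p / 2 * vol Ws ≤ isum Ws (fun l => ind (P (u :: l)))) with hA
      have hAW : A ⊆ W := filter_subset _ _
      have hAcard : p / 2 * W.card ≤ A.card := by
        simp only [isum, vol] at hS
        have h2 : ∑ u ∈ W, isum Ws (fun l => ind (P (u :: l))) ≤
            A.card * vol Ws + W.card * (p / 2 * vol Ws) := by
          rw [← sum_filter_add_sum_filter_not W
            (fun u => p / 2 * vol Ws ≤ isum Ws (fun l => ind (P (u :: l))))]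
          apply add_le_add
          · calc _ ≤ ∑ _u ∈ A, vol Ws := sum_le_sum fun u _ =>
                  isum_le_vol Ws _ fun l => ind_le_one _
              _ = A.card * vol Ws := by rw [sum_const, nsmul_eq_mul]
          · calc _ ≤ ∑ _u ∈ W.filter (fun u => ¬ p / 2 * vol Ws ≤
                    isum Ws (fun l => ind (P (u :: l)))), (p / 2 * vol Ws) := by
                  refine sum_le_sum fun u hu => ?_
                  rw [mem_filter] at hu
                  exact (not_le.1 hu.2).le
              _ ≤ ∑ _u ∈ W, (p / 2 * vol Ws) :=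
                  sum_le_sum_of_subset_of_nonneg (filter_subset _ _)
                    fun _ _ _ => by positivity
              _ = W.card * (p / 2 * vol Ws) := by rw [sum_const, nsmul_eq_mul]
        have h3 : p * W.card ≤ A.card + W.card * (p / 2) := by
          have h4 : p * W.card * vol Ws ≤ (A.card + W.card * (p / 2)) * vol Ws := by
            calc p * W.card * vol Ws = p * (W.card * vol Ws) := by ring
              _ ≤ _ := hS
              _ ≤ _ := h2
              _ = _ := by ring
          exact le_of_mul_le_mul_right h4 hvol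
        linarith
      have hAne : A.Nonempty := by
        rw [← card_pos]
        have : (0 : ℝ) < A.card := lt_of_lt_of_le (by positivity) hAcard
        exact_mod_cast this
      -- error of the first step
      have herr := hWst.l1 hlam hAW (show 0 < p / 2 by positivity) hAcard
      set R : V → ℝ := dprod c Ws with hR
      have hR0 : ∀ v, 0 ≤ R v := dprod_nonneg h0 Ws
      have hR1 : ∀ v, R v ≤ 1 := dprod_le_one h0 h1 Ws
      have hstep : ∑ v, F v * (dens c W v * R v) -
          N * Real.sqrt (lam * (1 + Real.log (1 / (p / 2)))) ≤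
          ∑ v, F v * (dens c A v * R v) := by
        have h2 : ∑ v, F v * (dens c W v * R v) - ∑ v, F v * (dens c A v * R v) ≤
            ∑ v, |dens c A v - dens c W v| := by
          rw [← sum_sub_distrib]
          refine sum_le_sum fun v _ => ?_
          have h3 : F v * (dens c W v * R v) - F v * (dens c A v * R v) =
              (F v * R v) * (dens c W v - dens c A v) := by ring
          rw [h3]
          have h4 : 0 ≤ F v * R v := mul_nonneg (hF0 v) (hR0 v)
          have h5 : F v * R v ≤ 1 := mul_le_one₀ (hF1 v) (hR0 v) (hR1 v)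
          have h6 : dens c W v - dens c A v ≤ |dens c A v - dens c W v| := by
            rw [abs_sub_comm]; exact le_abs_self _
          have h7 : 0 ≤ |dens c A v - dens c W v| := abs_nonneg _
          nlinarith
        linarith
      -- choice of the first vertex
      obtain ⟨u, huA, hu⟩ : ∃ u ∈ A, ∑ v, F v * (dens c A v * R v) ≤
          ∑ v, (F v * c v u) * R v := by
        by_contra hcon
        push Not at hcon
        have h2 : ∑ u ∈ A, ∑ v, (F v * c v u) * R v <
            ∑ _u ∈ A, ∑ v, F v * (dens c A v * R v) := sum_lt_sum_of_nonempty hAne hcon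
        rw [sum_const, nsmul_eq_mul, sum_comm] at h2
        have h3 : ∑ v, ∑ u ∈ A, (F v * c v u) * R v =
            A.card * ∑ v, F v * (dens c A v * R v) := by
          rw [mul_sum]
          refine sum_congr rfl fun v _ => ?_
          have h4 := card_mul_dens c A v
          calc ∑ u ∈ A, (F v * c v u) * R v = (∑ u ∈ A, c v u) * (F v * R v) := by
                rw [sum_mul]
                exact sum_congr rfl fun u _ => by ring
            _ = _ := by rw [← h4]; ring
        rw [h3] at h2
        exact lt_irrefl _ h2
      have huP : p / 2 * vol Ws ≤ isum Ws (fun l => ind (P (u :: l))) := by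
        rw [hA, mem_filter] at huA
        exact huA.2
      obtain ⟨l, hl1, hl2, hl3⟩ := peel h0 h1 hlam Ws (fun l => P (u :: l))
        (fun v => F v * c v u) (p / 2) hWs (fun v => mul_nonneg (hF0 v) (h0 v u))
        (fun v => mul_le_one₀ (hF1 v) (h0 v u) (h1 v u)) (by positivity) huP
      refine ⟨u :: l, by simp [hl1], hl2, ?_⟩
      have e1 : ∑ v, F v * dprod c (W :: Ws) v = ∑ v, F v * (dens c W v * R v) := by
        refine sum_congr rfl fun v _ => ?_
        rw [hR]
        simp [dprod]
      have e2 : ∑ v, F v * cprod c (u :: l) v = ∑ v, (F v * c v u) * cprod c l v := by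
        refine sum_congr rfl fun v _ => ?_
        simp only [cprod, List.map_cons, List.prod_cons]
        ring
      rw [e1, e2]
      have e3 : ((W :: Ws).length : ℝ) = m + 1 := by simp [hm]
      rw [e3]
      have e4 : (2 : ℝ) ^ (W :: Ws).length / p = 2 ^ Ws.length / (p / 2) := by
        rw [List.length_cons, pow_succ]
        field_simp
      rw [e4]
      have e5 : Real.sqrt (lam * (1 + Real.log (1 / (p / 2)))) ≤
          Real.sqrt (lam * (1 + Real.log (2 ^ Ws.length / (p / 2)))) := by
        apply Real.sqrt_le_sqrt
        apply mul_le_mul_of_nonneg_left _ hlam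
        have : Real.log (1 / (p / 2)) ≤ Real.log (2 ^ Ws.length / (p / 2)) := by
          apply Real.log_le_log (by positivity)
          apply div_le_div_of_nonneg_right _ (by positivity)
          exact one_le_pow₀ (by norm_num)
        linarith
      have hNnn : 0 ≤ N := Nat.cast_nonneg _
      have e6 := mul_le_mul_of_nonneg_left e5 hNnn
      have e7 : ∑ v, (F v * c v u) * R v - m * (N *
          Real.sqrt (lam * (1 + Real.log (2 ^ Ws.length / (p / 2))))) ≤
          ∑ v, (F v * c v u) * cprod c l v := hl3
      calc ∑ v, F v * (dens c W v * R v) - (m + 1) * (N *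
            Real.sqrt (lam * (1 + Real.log (2 ^ Ws.length / (p / 2)))))
          = (∑ v, F v * (dens c W v * R v) - N *
            Real.sqrt (lam * (1 + Real.log (2 ^ Ws.length / (p / 2))))) - m * (N *
            Real.sqrt (lam * (1 + Real.log (2 ^ Ws.length / (p / 2))))) := by ring
        _ ≤ ∑ v, (F v * c v u) * R v - m * (N *
            Real.sqrt (lam * (1 + Real.log (2 ^ Ws.length / (p / 2))))) := by
            linarith
        _ ≤ _ := e7

end Pool.Agent.H68.Book
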