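import Mathlib
import Pool.Agent.H68.Book.Peel

set_option autoImplicit false
set_option linter.unusedSectionVars false
set_option linter.unusedVariables false

/-!
Book Ramsey numbers, part 3: monochromatic cliques as lists, Ramsey supersaturation.
-/

namespace Pool.Agent.H68.Book

open Finset

variable {V : Type*} [Fintype V] [DecidableEq V]

/-- `u` and `w` are joined in colour `b` (`true` = edges of `G`, `false` = edges of the
complement). -/
def rl (G : SimpleGraph V) (b : Bool) (u w : V) : Prop := u ≠ w ∧ (b = true ↔ G.Adj u w)

/-- A list of vertices pairwise joined in colour `b`. -/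
def Clq (G : SimpleGraph V) (b : Bool) (l : List V) : Prop := l.Pairwise (rl G b)

/-- The kernel of colour `b` (the diagonal belongs to the colour `false`). -/
noncomputable def col (G : SimpleGraph V) (b : Bool) (v w : V) : ℝ := ind (b = true ↔ G.Adj v w)

lemma rl_symm (G : SimpleGraph V) (b : Bool) {u w : V} (h : rl G b u w) : rl G b w u :=
  ⟨h.1.symm, by rw [G.adj_comm]; exact h.2⟩

lemma col_nonneg (G : SimpleGraph V) (b : Bool) (v w : V) : 0 ≤ col G b v w := ind_nonneg _

lemma col_le_one (G : SimpleGraph V) (b : Bool) (v w : V) : col G b v w ≤ 1 := ind_le_one _

lemma col_add (G : SimpleGraph V) (b : Bool) (v w : V) : col G b v w + col G (!b) v w = 1 := by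
  unfold col
  by_cases h : G.Adj v w <;> cases b <;> simp [ind, h]

/-- Monotonicity of iterated sums, using membership. -/
lemma isum_mono_mem : ∀ (n : ℕ) (X : Finset V) (f g : List V → ℝ),
    (∀ l : List V, (∀ w ∈ l, w ∈ X) → f l ≤ g l) →
    isum (List.replicate n X) f ≤ isum (List.replicate n X) g
  | 0, X, f, g, h => h [] (by simp)
  | n + 1, X, f, g, h => by
      simp only [List.replicate_succ, isum]
      refine sum_le_sum fun u hu => isum_mono_mem n X _ _ fun l hl => h (u :: l) ?_
      intro w hw
      rcases List.mem_cons.1 hw with rfl | hw
      · exact hu
      · exact hl w hw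

lemma supersat (G : SimpleGraph V) : ∀ (s : ℕ) (a : Bool → ℕ), a true + a false = s →
    ∀ X : Finset V, 3 ^ s ≤ X.card →
    ∃ b : Bool, (1 / 3 : ℝ) ^ (s ^ 2) * (X.card : ℝ) ^ (a b) ≤
      isum (List.replicate (a b) X) (fun l => ind (Clq G b l)) := by
  intro s
  induction s with
  | zero =>
      intro a ha X hX
      refine ⟨true, ?_⟩
      have h0 : a true = 0 := by omega
      rw [h0]
      simp only [List.replicate_zero, isum]
      rw [ind_of (by simp [Clq])]
      norm_num
  | succ s ih =>
      intro a ha X hX
      classical
      have hone : (1 / 3 : ℝ) ^ ((s + 1) ^ 2) ≤ 1 := pow_le_one₀ (by norm_num) (by norm_num)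
      by_cases hex : ∃ b, a b = 0
      · obtain ⟨b, hb⟩ := hex
        refine ⟨b, ?_⟩
        rw [hb]
        simp only [List.replicate_zero, isum]
        rw [ind_of (by simp [Clq])]
        simpa using hone
      · push Not at hex
        have ht := hex true
        have hf := hex false
        have hs1 : 1 ≤ s := by omega
        have hX9 : 9 ≤ X.card := by
          calc 9 = 3 ^ 2 := by norm_num
            _ ≤ 3 ^ (s + 1) := Nat.pow_le_pow_right (by norm_num) (by omega)
            _ ≤ _ := hX
        set Nb : Bool → V → Finset V := fun b u => X.filter (fun w => rl G b u w) with hNb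
        have hsplit : ∀ u ∈ X, (Nb true u).card + (Nb false u).card + 1 = X.card := by
          intro u hu
          have h1 : X = insert u (Nb true u ∪ Nb false u) := by
            ext w
            simp only [hNb, mem_insert, mem_union, mem_filter, rl]
            constructor
            · intro hw
              by_cases huw : w = u
              · exact Or.inl huw
              · right
                by_cases hadj : G.Adj u w
                · left
                  exact ⟨hw, fun h => huw h.symm, by simp [hadj]⟩
                · right
                  exact ⟨hw, fun h => huw h.symm, by simp [hadj]⟩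
            · rintro (rfl | h | h)
              · exact hu
              · exact h.1
              · exact h.1
          have h2 : u ∉ Nb true u ∪ Nb false u := by
            simp [hNb, rl]
          have h3 : Disjoint (Nb true u) (Nb false u) := by
            rw [disjoint_left]
            intro w hw1 hw2
            simp only [hNb, mem_filter, rl] at hw1 hw2
            have e1 := hw1.2.2
            have e2 := hw2.2.2
            simp at e1 e2
            exact e2 e1
          conv_rhs => rw [h1]
          rw [card_insert_of_notMem h2, card_union_of_disjoint h3]
        set Xc : Bool → Finset V := fun b => X.filter (fun u => X.card ≤ 3 * (Nb b u).card)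
          with hXc
        obtain ⟨c, hc⟩ : ∃ c, X.card ≤ 2 * (Xc c).card := by
          by_contra hcon
          push Not at hcon
          have h1 : X ⊆ Xc true ∪ Xc false := by
            intro u hu
            have h2 := hsplit u hu
            rw [mem_union]
            simp only [hXc, mem_filter]
            by_contra hno
            push Not at hno
            have h3 := hno.1 hu
            have h4 := hno.2 hu
            omega
          have h2 := card_le_card h1
          have h3 := card_union_le (Xc true) (Xc false)
          have h4 := hcon true
          have h5 := hcon false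
          omega
        set a' : Bool → ℕ := Function.update a c (a c - 1) with ha'
        have hac : 0 < a c := Nat.pos_of_ne_zero (hex c)
        have ha's : a' true + a' false = s := by
          cases c
          · simp [ha', Function.update]
            omega
          · simp [ha', Function.update]
            omega
        have hNc : ∀ u ∈ Xc c, 3 ^ s ≤ (Nb c u).card := by
          intro u hu
          simp only [hXc, mem_filter] at hu
          have h1 := hu.2
          rw [pow_succ] at hX
          omega
        have hNcR : ∀ u ∈ Xc c, (X.card : ℝ) / 3 ≤ (Nb c u).card := by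
          intro u hu
          simp only [hXc, mem_filter] at hu
          have h1 : (X.card : ℝ) ≤ 3 * (Nb c u).card := by exact_mod_cast hu.2
          linarith
        have hXpos : (0 : ℝ) < X.card := by
          have : 0 < X.card := by omega
          exact_mod_cast this
        by_cases hcase : ∃ u ∈ Xc c, (1 / 3 : ℝ) ^ (s ^ 2) * ((Nb c u).card : ℝ) ^ (a' (!c)) ≤
            isum (List.replicate (a' (!c)) (Nb c u)) (fun l => ind (Clq G (!c) l))
        · obtain ⟨u, hu, hu2⟩ := hcase
          refine ⟨!c, ?_⟩
          have haeq : a' (!c) = a (!c) := by
            rw [ha', Function.update_of_ne (by cases c <;> decide)]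
          rw [haeq] at hu2
          have hale : a (!c) ≤ s := by
            cases c
            · simp; omega
            · simp; omega
          calc (1 / 3 : ℝ) ^ ((s + 1) ^ 2) * (X.card : ℝ) ^ (a (!c))
              ≤ (1 / 3 : ℝ) ^ (s ^ 2) * ((X.card : ℝ) / 3) ^ (a (!c)) := by
                have h0 : ((X.card : ℝ) / 3) ^ (a (!c)) =
                    (1 / 3 : ℝ) ^ (a (!c)) * (X.card : ℝ) ^ (a (!c)) := by
                  rw [div_eq_mul_one_div, mul_pow, mul_comm]
                have h1 : (1 / 3 : ℝ) ^ ((s + 1) ^ 2) ≤ (1 / 3 : ℝ) ^ (s ^ 2) *
                    (1 / 3 : ℝ) ^ (a (!c)) := by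
                  rw [← pow_add]
                  apply pow_le_pow_of_le_one (by norm_num) (by norm_num)
                  nlinarith
                have h2 : (0 : ℝ) ≤ (X.card : ℝ) ^ (a (!c)) := by positivity
                rw [h0, ← mul_assoc]
                exact mul_le_mul_of_nonneg_right h1 h2
            _ ≤ (1 / 3 : ℝ) ^ (s ^ 2) * ((Nb c u).card : ℝ) ^ (a (!c)) := by
                apply mul_le_mul_of_nonneg_left _ (by positivity)
                exact pow_le_pow_left₀ (by positivity) (hNcR u hu) _
            _ ≤ _ := hu2
            _ ≤ _ := isum_subset _ _ _ _ (filter_subset _ _) fun l => ind_nonneg _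
        · push Not at hcase
          refine ⟨c, ?_⟩
          have haeq : a' c = a c - 1 := by rw [ha', Function.update_self]
          obtain ⟨n, hn⟩ : ∃ n, a c = n + 1 := ⟨a c - 1, by omega⟩
          have hn' : a' c = n := by rw [haeq, hn]; simp
          have hns : n + 1 ≤ s := by
            have : a c + a (!c) = s + 1 := by
              cases c
              · simp; omega
              · simp; omega
            have := hex (!c)
            omega
          have hall : ∀ u ∈ Xc c, (1 / 3 : ℝ) ^ (s ^ 2) * ((X.card : ℝ) / 3) ^ n ≤
              isum (List.replicate n X) (fun l => ind (Clq G c (u :: l))) := by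
            intro u hu
            obtain ⟨b, hb⟩ := ih a' ha's (Nb c u) (hNc u hu)
            have hbc : b = c := by
              by_contra hbc
              have : b = !c := by
                cases b <;> cases c <;> simp_all
              subst this
              exact absurd hb (not_le.2 (hcase u hu))
            rw [hbc, hn'] at hb
            calc (1 / 3 : ℝ) ^ (s ^ 2) * ((X.card : ℝ) / 3) ^ n
                ≤ (1 / 3 : ℝ) ^ (s ^ 2) * ((Nb c u).card : ℝ) ^ n := by
                  apply mul_le_mul_of_nonneg_left _ (pow_nonneg (by norm_num) _)
                  exact pow_le_pow_left₀ (div_nonneg (Nat.cast_nonneg _) (by norm_num))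
                    (hNcR u hu) _
              _ ≤ _ := hb
              _ ≤ isum (List.replicate n (Nb c u)) (fun l => ind (Clq G c (u :: l))) := by
                  apply isum_mono_mem
                  intro l hl
                  by_cases hP : Clq G c l
                  · rw [ind_of hP, ind_of]
                    unfold Clq at *
                    rw [List.pairwise_cons]
                    refine ⟨fun w hw => ?_, hP⟩
                    have := hl w hw
                    simp only [hNb, mem_filter] at this
                    exact this.2
                  · rw [ind_of_not hP]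
                    exact ind_nonneg _
              _ ≤ _ := isum_subset _ _ _ _ (filter_subset _ _) fun l => ind_nonneg _
          rw [hn]
          simp only [List.replicate_succ, isum]
          have hsub : Xc c ⊆ X := filter_subset _ _
          have hcR : (X.card : ℝ) / 2 ≤ (Xc c).card := by
            have : (X.card : ℝ) ≤ 2 * (Xc c).card := by exact_mod_cast hc
            linarith
          calc (1 / 3 : ℝ) ^ ((s + 1) ^ 2) * (X.card : ℝ) ^ (n + 1)
              ≤ ((X.card : ℝ) / 2) * ((1 / 3 : ℝ) ^ (s ^ 2) * ((X.card : ℝ) / 3) ^ n) := by
                have h0 : ((X.card : ℝ) / 3) ^ n =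
                    (1 / 3 : ℝ) ^ n * (X.card : ℝ) ^ n := by
                  rw [div_eq_mul_one_div, mul_pow, mul_comm]
                have h1 : (1 / 3 : ℝ) ^ ((s + 1) ^ 2) ≤ (1 / 2) * ((1 / 3 : ℝ) ^ (s ^ 2) *
                    (1 / 3 : ℝ) ^ n) := by
                  have h2 : (1 / 3 : ℝ) ^ ((s + 1) ^ 2) ≤ (1 / 3 : ℝ) ^ (s ^ 2 + n + 1) := by
                    apply pow_le_pow_of_le_one (by norm_num) (by norm_num)
                    nlinarith
                  have h2' : (1 / 3 : ℝ) ^ (s ^ 2 + n + 1) =
                      (1 / 3 : ℝ) ^ (s ^ 2) * (1 / 3 : ℝ) ^ n * (1 / 3) := by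
                    rw [pow_succ, pow_add]
                  rw [h2'] at h2
                  have h3 : 0 ≤ (1 / 3 : ℝ) ^ (s ^ 2) * (1 / 3 : ℝ) ^ n := by positivity
                  linarith
                have h2 : (0 : ℝ) ≤ (X.card : ℝ) ^ (n + 1) := pow_nonneg (Nat.cast_nonneg _) _
                have h3 := mul_le_mul_of_nonneg_right h1 h2
                rw [h0]
                calc _ ≤ _ := h3
                  _ = _ := by rw [pow_succ]; ring
            _ ≤ (Xc c).card * ((1 / 3 : ℝ) ^ (s ^ 2) * ((X.card : ℝ) / 3) ^ n) :=
                mul_le_mul_of_nonneg_right hcR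
                  (mul_nonneg (pow_nonneg (by norm_num) _)
                    (pow_nonneg (div_nonneg (Nat.cast_nonneg _) (by norm_num)) _))
            _ = ∑ _u ∈ Xc c, ((1 / 3 : ℝ) ^ (s ^ 2) * ((X.card : ℝ) / 3) ^ n) := by
                rw [sum_const, nsmul_eq_mul]
            _ ≤ ∑ u ∈ Xc c, isum (List.replicate n X) (fun l => ind (Clq G c (u :: l))) :=
                sum_le_sum hall
            _ ≤ _ := sum_le_sum_of_subset_of_nonneg hsub fun u _ _ =>
                isum_nonneg _ _ fun l => ind_nonneg _

end Pool.Agent.H68.Book
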