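import Mathlib
import Pool.Agent.H68.Book.Supersat
import Pool.Agent.H68.Book.Ineq

set_option autoImplicit false
set_option linter.unusedSectionVars false
set_option linter.unusedVariables false

/-!
Book Ramsey numbers, part 5: the cover by stable sets, the error bound and the lower bound
for product densities.
-/

namespace Pool.Agent.H68.Book

open Finset

variable {V : Type*} [Fintype V] [DecidableEq V]

/-- Cover by disjoint stable sets. -/
lemma cover {c : V → V → ℝ} (h0 : ∀ v w, 0 ≤ c v w) (h1 : ∀ v w, c v w ≤ 1) {lam : ℝ}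
    (hlam : 0 < lam) (m : ℕ) : ∀ (n : ℕ) (U : Finset V), U.card = n →
    ∃ 𝓦 : Finset (Finset V), (∀ W ∈ 𝓦, Stab c lam W ∧ m ≤ W.card ∧ W ⊆ U) ∧
      (∀ W ∈ 𝓦, ∀ W' ∈ 𝓦, W ≠ W' → Disjoint W W') ∧
      (U.card : ℝ) - ∑ W ∈ 𝓦, (W.card : ℝ) ≤ m * Real.exp (1 / lam) := by
  intro n
  induction n using Nat.strong_induction_on with
  | _ n ih =>
    intro U hU
    by_cases hsmall : (U.card : ℝ) ≤ m * Real.exp (1 / lam)
    · exact ⟨∅, by simp, by simp, by simpa using hsmall⟩
    · push Not at hsmall
      have hUpos : (0 : ℝ) < U.card := lt_of_le_of_lt (by positivity) hsmall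
      have hUne : U.Nonempty := by
        rw [← card_pos]; exact_mod_cast hUpos
      obtain ⟨W, hWU, hWst, hWcard⟩ := exists_stab h0 h1 hlam hUne
      have hWm : m ≤ W.card := by
        have h2 : (m : ℝ) ≤ Real.exp (-(1 / lam)) * U.card := by
          have h3 : Real.exp (-(1 / lam)) * (m * Real.exp (1 / lam)) = m := by
            rw [mul_comm (m : ℝ), ← mul_assoc, ← Real.exp_add]
            simp
          calc (m : ℝ) = Real.exp (-(1 / lam)) * (m * Real.exp (1 / lam)) := h3.symm
            _ ≤ _ := mul_le_mul_of_nonneg_left hsmall.le (Real.exp_pos _).le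
        exact_mod_cast h2.trans hWcard
      have hcard : (U \ W).card < n := by
        have h2 := card_sdiff_add_card_eq_card hWU
        have h3 := hWst.1.card_pos
        omega
      obtain ⟨𝓦, hW1, hW2, hW3⟩ := ih _ hcard (U \ W) rfl
      have hnot : W ∉ 𝓦 := by
        intro hmem
        have h2 := (hW1 W hmem).2.2
        obtain ⟨x, hx⟩ := hWst.1
        have := h2 hx
        rw [mem_sdiff] at this
        exact this.2 hx
      have hdisj : ∀ W' ∈ 𝓦, Disjoint W W' := by
        intro W' hW'
        rw [disjoint_left]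
        intro x hx hx'
        have := (hW1 W' hW').2.2 hx'
        rw [mem_sdiff] at this
        exact this.2 hx
      refine ⟨insert W 𝓦, ?_, ?_, ?_⟩
      · intro W' hW'
        rcases mem_insert.1 hW' with rfl | h
        · exact ⟨hWst, hWm, hWU⟩
        · obtain ⟨a, b, d⟩ := hW1 W' h
          exact ⟨a, b, d.trans sdiff_subset⟩
      · intro A hA B hB hAB
        rcases mem_insert.1 hA with rfl | hA'
        · rcases mem_insert.1 hB with rfl | hB'
          · exact absurd rfl hAB
          · exact hdisj B hB'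
        · rcases mem_insert.1 hB with rfl | hB'
          · exact (hdisj A hA').symm
          · exact hW2 A hA' B hB' hAB
      · rw [sum_insert hnot]
        have h2 : ((U \ W).card : ℝ) + W.card = U.card := by
          exact_mod_cast card_sdiff_add_card_eq_card hWU
        linarith

/-- The error bound. -/
lemma err_le {k j : ℕ} (hk : 1 ≤ k) (hj : j ≤ k) {δ lam p N : ℝ} (hδ : 0 < δ) (hN : 0 ≤ N)
    (hlam : lam = (δ / 2 ^ k) ^ 2 / (7 * k ^ 4)) (hp : Real.exp (-(5 * k ^ 2)) ≤ p) :
    j * (N * Real.sqrt (lam * (1 + Real.log (2 ^ j / p)))) ≤ δ * (N / 2 ^ k) := by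
  have hk0 : (1 : ℝ) ≤ k := by exact_mod_cast hk
  have hjk : (j : ℝ) ≤ k := by exact_mod_cast hj
  have hp0 : 0 < p := lt_of_lt_of_le (Real.exp_pos _) hp
  have h1 : -(5 * (k : ℝ) ^ 2) ≤ Real.log p := by
    rw [Real.le_log_iff_exp_le hp0]
    exact hp
  have h2 : 1 + Real.log (2 ^ j / p) ≤ 7 * k ^ 2 := by
    rw [Real.log_div (by positivity) hp0.ne', Real.log_pow]
    have h3 : Real.log 2 ≤ 1 := by
      have := Real.log_two_lt_d9
      linarith
    have h4 : (j : ℝ) * Real.log 2 ≤ k * 1 :=
      mul_le_mul hjk h3 (Real.log_nonneg (by norm_num)) (by linarith)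
    nlinarith
  have hlam0 : 0 ≤ lam := by rw [hlam]; positivity
  have h5 : Real.sqrt (lam * (1 + Real.log (2 ^ j / p))) ≤ δ / 2 ^ k / k := by
    rw [Real.sqrt_le_left (by positivity)]
    calc lam * (1 + Real.log (2 ^ j / p)) ≤ lam * (7 * k ^ 2) :=
          mul_le_mul_of_nonneg_left h2 hlam0
      _ = (δ / 2 ^ k / k) ^ 2 := by
          rw [hlam]
          field_simp
  calc (j : ℝ) * (N * Real.sqrt (lam * (1 + Real.log (2 ^ j / p))))
      ≤ k * (N * (δ / 2 ^ k / k)) := by
        apply mul_le_mul hjk _ (by positivity) (by linarith)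
        exact mul_le_mul_of_nonneg_left h5 hN
    _ = δ * (N / 2 ^ k) := by
        field_simp

/-- Lower bound for sums of product densities of the complementary colour. -/
lemma dprod_lower {c c' : V → V → ℝ} (h0 : ∀ v w, 0 ≤ c' v w) (h1 : ∀ v w, c' v w ≤ 1)
    (hcc : ∀ v w, c v w + c' v w = 1) {k : ℕ} (hk : 1 ≤ k) {D : ℝ}
    {F : V → ℝ} (hF0 : ∀ v, 0 ≤ F v) (hF1 : ∀ v, F v ≤ 1) (Ws : List (Finset V))
    (hW : ∀ W ∈ Ws, W.Nonempty ∧ ∑ v, dens c W v ^ k ≤ D) (hlen : Ws.length ≤ k) :
    2 / 2 ^ k * ∑ v, F v - Ws.length / k * D ≤ ∑ v, F v * dprod c' Ws v := by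
  have hk0 : (0 : ℝ) < k := by exact_mod_cast hk
  have hpt : ∀ v, F v * (2 / 2 ^ k) ≤ F v * dprod c' Ws v +
      (Ws.map (fun W => dens c W v ^ k)).sum / k := by
    intro v
    have h2 := ineq hk (l := Ws.map fun W => dens c' W v) (by simpa using hlen)
      (by
        intro y hy
        obtain ⟨W, _, rfl⟩ := List.mem_map.1 hy
        exact dens_nonneg h0 W v)
      (by
        intro y hy
        obtain ⟨W, _, rfl⟩ := List.mem_map.1 hy
        exact dens_le_one h1 W v)
    rw [List.map_map] at h2
    have h3 : (Ws.map ((fun y => (1 - y) ^ k) ∘ fun W => dens c' W v)) =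
        (Ws.map (fun W => dens c W v ^ k)) := by
      apply List.map_congr_left
      intro W hWm
      simp only [Function.comp]
      rw [dens_compl hcc (hW W hWm).1]
      ring
    rw [h3] at h2
    have h4 : 0 ≤ (Ws.map (fun W => dens c W v ^ k)).sum / k := by
      apply div_nonneg _ hk0.le
      apply List.sum_nonneg
      intro x hx
      obtain ⟨W, hWm, rfl⟩ := List.mem_map.1 hx
      have h5 : 0 ≤ dens c W v := by
        have h6 := dens_compl hcc (hW W hWm).1 v
        have h7 := dens_le_one h1 W v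
        linarith
      positivity
    have h5 := mul_le_mul_of_nonneg_left h2 (hF0 v)
    have h6 : F v * ((Ws.map (fun W => dens c W v ^ k)).sum / k) ≤
        1 * ((Ws.map (fun W => dens c W v ^ k)).sum / k) :=
      mul_le_mul_of_nonneg_right (hF1 v) h4
    have h7 : dprod c' Ws v = (Ws.map fun W => dens c' W v).prod := rfl
    rw [h7]
    linarith [mul_add (F v) (Ws.map fun W => dens c' W v).prod
      ((Ws.map (fun W => dens c W v ^ k)).sum / k)]
  have hsum : ∑ v, (Ws.map (fun W => dens c W v ^ k)).sum ≤ Ws.length * D := by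
    clear hpt hlen
    induction Ws with
    | nil => simp
    | cons W Ws ih =>
        have h2 := ih (fun X hX => hW X (by simp [hX]))
        have h3 := (hW W (by simp)).2
        simp only [List.map_cons, List.sum_cons, List.length_cons]
        rw [sum_add_distrib]
        push_cast
        linarith
  have htot : ∑ v, F v * (2 / 2 ^ k) ≤ ∑ v, (F v * dprod c' Ws v +
      (Ws.map (fun W => dens c W v ^ k)).sum / k) := sum_le_sum fun v _ => hpt v
  rw [sum_add_distrib, ← sum_div, ← sum_mul] at htot
  have h8 : (∑ v, (Ws.map (fun W => dens c W v ^ k)).sum) / k ≤ Ws.length * D / k :=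
    div_le_div_of_nonneg_right hsum hk0.le
  have h9 : (Ws.length : ℝ) / k * D = Ws.length * D / k := by ring
  rw [h9]
  linarith

lemma isum_mono_len : ∀ (Ws : List (Finset V)) (f g : List V → ℝ),
    (∀ l : List V, l.length = Ws.length → f l ≤ g l) → isum Ws f ≤ isum Ws g
  | [], f, g, h => h [] rfl
  | W :: Ws, f, g, h => sum_le_sum fun u _ => isum_mono_len Ws _ _ fun l hl =>
      h (u :: l) (by simp [hl])

end Pool.Agent.H68.Book
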