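import Mathlib
import Pool.Agent.H68.Book.Cover

set_option autoImplicit false
set_option linter.unusedSectionVars false
set_option linter.unusedVariables false

/-!
Book Ramsey numbers, part 6: the core argument.
-/

namespace Pool.Agent.H68.Book

open Finset

variable {V : Type*} [Fintype V] [DecidableEq V]

lemma cprod_nonneg {c : V → V → ℝ} (h0 : ∀ v w, 0 ≤ c v w) (l : List V) (v : V) :
    0 ≤ cprod c l v := by
  unfold cprod
  induction l with
  | nil => simp
  | cons u l ih =>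
      rw [List.map_cons, List.prod_cons]
      exact mul_nonneg (h0 v u) ih

lemma cprod_le_one {c : V → V → ℝ} (h0 : ∀ v w, 0 ≤ c v w) (h1 : ∀ v w, c v w ≤ 1)
    (l : List V) (v : V) : cprod c l v ≤ 1 := by
  induction l with
  | nil => simp [cprod]
  | cons u l ih =>
      have h2 := cprod_nonneg h0 l v
      unfold cprod at *
      rw [List.map_cons, List.prod_cons]
      exact mul_le_one₀ (h1 v u) h2 ih

/-- Every large stable set is sparse, on average over the `k`-th powers, in one of the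
colours. -/
lemma sparse {G : SimpleGraph V} {k : ℕ} (hk : 1 ≤ k) {δ lam : ℝ} (hδ : 0 < δ)
    (hlam : lam = (δ / 2 ^ k) ^ 2 / (7 * k ^ 4))
    (hno : ∀ (b : Bool) (l : List V), l.length = k → Clq G b l →
      ∑ v, cprod (col G b) l v < (1 - δ) * (Fintype.card V / 2 ^ k))
    {W : Finset V} (hst : ∀ b, Stab (col G b) lam W) (hcard : 9 ^ k ≤ W.card) :
    ∃ b, ∑ v, dens (col G b) W v ^ k ≤ Fintype.card V / 2 ^ k := by
  have hk0 : (1 : ℝ) ≤ k := by exact_mod_cast hk
  obtain ⟨b, hb⟩ := supersat G (2 * k) (fun _ => k) (by ring) W (by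
    calc 3 ^ (2 * k) = 9 ^ k := by rw [pow_mul]; norm_num
      _ ≤ _ := hcard)
  refine ⟨b, ?_⟩
  have hlam0 : 0 ≤ lam := by rw [hlam]; positivity
  have hp : Real.exp (-(5 * k ^ 2)) ≤ (1 / 3 : ℝ) ^ ((2 * k) ^ 2) := by
    have h1 : (1 / 3 : ℝ) ^ ((2 * k) ^ 2) = (1 / 81) ^ (k ^ 2) := by
      rw [show (2 * k) ^ 2 = 4 * k ^ 2 by ring, pow_mul]
      norm_num
    have h2 : Real.exp (-(5 * (k : ℝ) ^ 2)) = (Real.exp (-5)) ^ (k ^ 2) := by
      rw [← Real.exp_nat_mul]
      push_cast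
      ring_nf
    rw [h1, h2]
    apply pow_le_pow_left₀ (Real.exp_pos _).le
    rw [Real.exp_neg, one_div]
    apply inv_anti₀ (by norm_num)
    have h3 : Real.exp 5 = (Real.exp 1) ^ 5 := by
      rw [← Real.exp_nat_mul]; norm_num
    rw [h3]
    calc (81 : ℝ) ≤ (27 / 10) ^ 5 := by norm_num
      _ ≤ _ := pow_le_pow_left₀ (by norm_num) (by linarith [Real.exp_one_gt_d9]) 5
  obtain ⟨l, hl1, hl2, hl3⟩ := peel (col_nonneg G b) (col_le_one G b) hlam0
    (List.replicate k W) (Clq G b) (fun _ => 1) ((1 / 3 : ℝ) ^ ((2 * k) ^ 2))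
    (by
      intro X hX
      rw [List.eq_of_mem_replicate hX]
      exact hst b)
    (fun _ => zero_le_one) (fun _ => le_rfl) (by positivity)
    (by rw [vol_replicate]; exact hb)
  rw [List.length_replicate] at hl1 hl3
  have h4 := hno b l hl1 hl2
  have h5 := err_le hk le_rfl hδ (Nat.cast_nonneg (Fintype.card V)) hlam hp
  have h6 : ∑ v, (1 : ℝ) * dprod (col G b) (List.replicate k W) v =
      ∑ v, dens (col G b) W v ^ k := by
    refine sum_congr rfl fun v _ => ?_
    rw [one_mul]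
    simp [dprod]
  have h7 : ∑ v, (1 : ℝ) * cprod (col G b) l v = ∑ v, cprod (col G b) l v := by
    refine sum_congr rfl fun v _ => one_mul _
  rw [h6, h7] at hl3
  linarith

lemma theta_lb {k j : ℕ} (hk : 1 ≤ k) (hj : j ≤ k) :
    Real.exp (-(5 * k ^ 2)) ≤ (1 / (8 * k * 2 ^ k) : ℝ) ^ j / 2 := by
  have hk0 : (1 : ℝ) ≤ k := by exact_mod_cast hk
  have h2k : (0 : ℝ) < 2 ^ k := by positivity
  set θ : ℝ := 1 / (8 * k * 2 ^ k) with hθ
  have hθ2 : (1 / 2 : ℝ) ^ (5 * k) ≤ θ := by
    have h1 : (8 * (k : ℝ) * 2 ^ k) ≤ 2 ^ (5 * k) := by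
      have h2 : (8 * (k : ℝ)) ≤ 2 ^ (4 * k) := by
        have h3 : ∀ n : ℕ, 1 ≤ n → 8 * n ≤ 2 ^ (4 * n) := by
          intro n hn
          induction n, hn using Nat.le_induction with
          | base => norm_num
          | succ n hn ih =>
              have : 2 ^ (4 * (n + 1)) = 16 * 2 ^ (4 * n) := by
                rw [show 4 * (n + 1) = 4 * n + 4 by ring, pow_add]; ring
              omega
        exact_mod_cast h3 k hk
      calc (8 * (k : ℝ) * 2 ^ k) ≤ 2 ^ (4 * k) * 2 ^ k :=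
            mul_le_mul_of_nonneg_right h2 h2k.le
        _ = 2 ^ (5 * k) := by rw [← pow_add]; congr 1; ring
    rw [hθ, one_div_pow]
    exact one_div_le_one_div_of_le (by positivity) h1
  have hθ1 : θ ^ j ≥ ((1 / 2 : ℝ) ^ (5 * k)) ^ k := by
    calc ((1 / 2 : ℝ) ^ (5 * k)) ^ k ≤ ((1 / 2 : ℝ) ^ (5 * k)) ^ j := by
          apply pow_le_pow_of_le_one (by positivity) _ hj
          exact pow_le_one₀ (by norm_num) (by norm_num)
      _ ≤ θ ^ j := pow_le_pow_left₀ (by positivity) hθ2 j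
  have h1 : (1 / 64 : ℝ) ^ (k ^ 2) ≤ ((1 / 2 : ℝ) ^ (5 * k)) ^ k / 2 := by
    have e1 : (1 / 64 : ℝ) ^ (k ^ 2) = (1 / 2 : ℝ) ^ (6 * k ^ 2) := by
      rw [pow_mul]; norm_num
    have e2 : ((1 / 2 : ℝ) ^ (5 * k)) ^ k / 2 = (1 / 2 : ℝ) ^ (5 * k ^ 2 + 1) := by
      rw [← pow_mul, pow_succ]
      have : 5 * k * k = 5 * k ^ 2 := by ring
      rw [this]
      ring
    rw [e1, e2]
    apply pow_le_pow_of_le_one (by norm_num) (by norm_num)
    nlinarith
  have h2 : Real.exp (-(5 * (k : ℝ) ^ 2)) = (Real.exp (-5)) ^ (k ^ 2) := by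
    rw [← Real.exp_nat_mul]
    push_cast
    ring_nf
  have h3 : Real.exp (-5) ≤ 1 / 64 := by
    rw [Real.exp_neg, one_div]
    apply inv_anti₀ (by norm_num)
    have h3 : Real.exp 5 = (Real.exp 1) ^ 5 := by
      rw [← Real.exp_nat_mul]; norm_num
    rw [h3]
    calc (64 : ℝ) ≤ (27 / 10) ^ 5 := by norm_num
      _ ≤ _ := pow_le_pow_left₀ (by norm_num) (by linarith [Real.exp_one_gt_d9]) 5
  calc Real.exp (-(5 * (k : ℝ) ^ 2)) = (Real.exp (-5)) ^ (k ^ 2) := h2
    _ ≤ (1 / 64 : ℝ) ^ (k ^ 2) := pow_le_pow_left₀ (Real.exp_pos _).le h3 _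
    _ ≤ _ := h1
    _ ≤ θ ^ j / 2 := div_le_div_of_nonneg_right hθ1 (by norm_num)

/-- Adding a further stable set to a list of stable sets spanning many cliques. -/
lemma extend {G : SimpleGraph V} {b : Bool} {k : ℕ} (hk : 1 ≤ k) {δ lam : ℝ} (hδ : 0 < δ)
    (hδk : δ ≤ 1 / (8 * k))
    (hlam : lam = (δ / 2 ^ k) ^ 2 / (7 * k ^ 4))
    (hN : 8 * (k : ℝ) ^ 2 * 2 ^ k ≤ Fintype.card V)
    {𝓡 : Finset (Finset V)} (hst : ∀ W ∈ 𝓡, Stab (col G (!b)) lam W)
    (hdis : ∀ W ∈ 𝓡, ∀ W' ∈ 𝓡, W ≠ W' → Disjoint W W')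
    (hD : ∀ W ∈ 𝓡, ∑ v, dens (col G b) W v ^ k ≤ Fintype.card V / 2 ^ k)
    {M : ℝ} (hM : 2 * k * M ≤ Fintype.card V)
    (hcov : Fintype.card V - M ≤ 2 * ∑ W ∈ 𝓡, (W.card : ℝ))
    (Ws : List (Finset V)) (hWs : ∀ W ∈ Ws, W ∈ 𝓡) (hlen : Ws.length < k)
    (hcl : (1 / (8 * k * 2 ^ k) : ℝ) ^ Ws.length * vol Ws ≤
      isum Ws (fun l => ind (Clq G (!b) l))) :
    ∃ W ∈ 𝓡, (1 / (8 * k * 2 ^ k) : ℝ) ^ (W :: Ws).length * vol (W :: Ws) ≤
      isum (W :: Ws) (fun l => ind (Clq G (!b) l)) := by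
  classical
  have hk0 : (1 : ℝ) ≤ k := by exact_mod_cast hk
  have hkpos : (0 : ℝ) < k := by linarith
  set N : ℝ := (Fintype.card V : ℝ) with hNdef
  set T : ℝ := N / 2 ^ k with hT
  have h2k : (0 : ℝ) < 2 ^ k := by positivity
  have hNpos : 0 < N := lt_of_lt_of_le (by positivity) hN
  have hTpos : 0 < T := by positivity
  have hTN : T * 2 ^ k = N := by rw [hT]; field_simp
  set θ : ℝ := 1 / (8 * k * 2 ^ k) with hθ
  have hθpos : 0 < θ := by positivity
  set j := Ws.length with hj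
  have hlam0 : 0 ≤ lam := by rw [hlam]; positivity
  have hvol : 0 < vol Ws := vol_pos Ws fun X hX => (hst X (hWs X hX)).1
  -- the vertex set of the family
  set Vb : Finset V := 𝓡.biUnion (fun W => W) with hVb
  have hVbcard : (Vb.card : ℝ) = ∑ W ∈ 𝓡, (W.card : ℝ) := by
    rw [hVb, card_biUnion (fun W hW W' hW' hne => hdis W hW W' hW' hne)]
    push_cast
    rfl
  set F : V → ℝ := fun v => ind (v ∈ Vb) with hF
  have hF0 : ∀ v, 0 ≤ F v := fun v => ind_nonneg _
  have hF1 : ∀ v, F v ≤ 1 := fun v => ind_le_one _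
  have hFsum : ∀ g : V → ℝ, ∑ v, F v * g v = ∑ v ∈ Vb, g v := by
    intro g
    rw [← sum_filter_add_sum_filter_not univ (fun v => v ∈ Vb)]
    have e1 : ∑ v ∈ univ.filter (fun v => v ∈ Vb), F v * g v = ∑ v ∈ Vb, g v := by
      rw [filter_mem_eq_inter, univ_inter]
      refine sum_congr rfl fun v hv => ?_
      rw [hF]
      simp only
      rw [ind_of hv, one_mul]
    have e2 : ∑ v ∈ univ.filter (fun v => ¬ v ∈ Vb), F v * g v = 0 := by
      refine sum_eq_zero fun v hv => ?_
      rw [mem_filter] at hv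
      rw [hF]
      simp only
      rw [ind_of_not hv.2, zero_mul]
    rw [e1, e2, add_zero]
  have hFS : ∑ v, F v = Vb.card := by
    have := hFsum (fun _ => 1)
    simp only [mul_one] at this
    rw [this]
    simp
  -- the threshold
  set X : ℝ := 3 / 8 * (T / k) with hX
  have hlow : X ≤ ∑ v, F v * dprod (col G (!b)) Ws v - δ * T := by
    have h1 := dprod_lower (c := col G b) (col_nonneg G (!b)) (col_le_one G (!b))
      (col_add G b) hk hF0 hF1 Ws (D := T)
      (fun W hW => ⟨(hst W (hWs W hW)).1, hD W (hWs W hW)⟩) hlen.le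
    rw [hFS, hVbcard] at h1
    have h2 : (Ws.length : ℝ) / k * T ≤ (1 - 1 / k) * T := by
      apply mul_le_mul_of_nonneg_right _ hTpos.le
      rw [div_le_iff₀ hkpos]
      have h3 : (Ws.length : ℝ) + 1 ≤ k := by exact_mod_cast hlen
      have h4 : (1 - 1 / (k : ℝ)) * k = k - 1 := by field_simp
      rw [h4]
      linarith
    have h3 : (N - M) / 2 ^ k ≤ 2 / 2 ^ k * ∑ W ∈ 𝓡, (W.card : ℝ) := by
      rw [div_mul_eq_mul_div]
      exact div_le_div_of_nonneg_right hcov h2k.le
    have h4 : M / 2 ^ k ≤ T / (2 * k) := by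
      rw [div_le_div_iff₀ h2k (by positivity)]
      rw [hTN]
      linarith
    have h5 : (N - M) / 2 ^ k = T - M / 2 ^ k := by rw [hT]; ring
    have h6 : δ * T ≤ T / (8 * k) := by
      calc δ * T ≤ 1 / (8 * k) * T := mul_le_mul_of_nonneg_right hδk hTpos.le
        _ = _ := by ring
    have h7 : (1 - 1 / (k : ℝ)) * T = T - T / k := by ring
    have h8 : T / (2 * k) = 1 / 2 * (T / k) := by field_simp
    have h9 : T / (8 * k) = 1 / 8 * (T / k) := by field_simp
    rw [hX]
    linarith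
  -- bad lists are rare
  set P : List V → Prop := fun l => Clq G (!b) l ∧ ∑ v, F v * cprod (col G (!b)) l v < X with hP
  set Q : List V → Prop := fun l => Clq G (!b) l ∧ X ≤ ∑ v, F v * cprod (col G (!b)) l v with hQ
  have hppos : 0 < θ ^ j / 2 := by positivity
  have hbad : isum Ws (fun l => ind (P l)) < θ ^ j / 2 * vol Ws := by
    by_contra hcon
    push Not at hcon
    obtain ⟨l, hl1, hl2, hl3⟩ := peel (col_nonneg G (!b)) (col_le_one G (!b)) hlam0 Ws P F
      (θ ^ j / 2) (fun W hW => hst W (hWs W hW)) hF0 hF1 hppos hcon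
    have hexp : Real.exp (-(5 * k ^ 2)) ≤ θ ^ j / 2 := theta_lb hk hlen.le
    have h5 := err_le hk hlen.le hδ hNpos.le hlam hexp
    have h6 := hl2.2
    have h7 : δ * (N / 2 ^ k) = δ * T := rfl
    linarith
  have hgood : θ ^ j / 2 * vol Ws ≤ isum Ws (fun l => ind (Q l)) := by
    have h1 : isum Ws (fun l => ind (Clq G (!b) l)) ≤
        isum Ws (fun l => ind (P l)) + isum Ws (fun l => ind (Q l)) := by
      rw [← isum_add]
      apply isum_mono
      intro l
      by_cases hc : Clq G (!b) l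
      · rw [ind_of hc]
        rcases lt_or_ge (∑ v, F v * cprod (col G (!b)) l v) X with h | h
        · rw [ind_of (show P l from ⟨hc, h⟩)]
          linarith [ind_nonneg (Q l)]
        · rw [ind_of (show Q l from ⟨hc, h⟩)]
          linarith [ind_nonneg (P l)]
      · rw [ind_of_not hc]
        linarith [ind_nonneg (Q l), ind_nonneg (P l)]
    linarith
  -- extension of good lists
  have hext : ∀ l : List V, l.length = Ws.length →
      (X - k) * ind (Q l) ≤ ∑ v ∈ Vb, ind (Clq G (!b) (v :: l)) := by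
    intro l hl
    by_cases hq : Q l
    · rw [ind_of hq, mul_one]
      have h1 : ∑ v ∈ Vb, (cprod (col G (!b)) l v - ind (v ∈ l)) ≤
          ∑ v ∈ Vb, ind (Clq G (!b) (v :: l)) := by
        refine sum_le_sum fun v _ => ?_
        by_cases hvl : v ∈ l
        · rw [ind_of hvl]
          have h2 : cprod (col G (!b)) l v ≤ 1 :=
            cprod_le_one (col_nonneg G (!b)) (col_le_one G (!b)) l v
          linarith [ind_nonneg (Clq G (!b) (v :: l))]
        · rw [ind_of_not hvl, sub_zero]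
          by_cases hall : ∀ u ∈ l, ((!b) = true ↔ G.Adj v u)
          · rw [ind_of (show Clq G (!b) (v :: l) from ?_)]
            · exact cprod_le_one (col_nonneg G (!b)) (col_le_one G (!b)) l v
            · unfold Clq
              rw [List.pairwise_cons]
              refine ⟨fun u hu => ⟨fun h => hvl (h ▸ hu), hall u hu⟩, hq.1⟩
          · push Not at hall
            obtain ⟨u, hu, hne⟩ := hall
            have h2 : cprod (col G (!b)) l v = 0 := by
              unfold cprod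
              apply List.prod_eq_zero
              rw [List.mem_map]
              refine ⟨u, hu, ?_⟩
              unfold col
              apply ind_of_not
              tauto
            rw [h2]
            exact ind_nonneg _
      have h2 : ∑ v ∈ Vb, ind (v ∈ l) ≤ k := by
        calc ∑ v ∈ Vb, ind (v ∈ l) ≤ ∑ v ∈ l.toFinset, (1 : ℝ) := by
              rw [← sum_filter_add_sum_filter_not Vb (fun v => v ∈ l)]
              have e2 : ∑ v ∈ Vb.filter (fun v => ¬ v ∈ l), ind (v ∈ l) = 0 := by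
                refine sum_eq_zero fun v hv => ?_
                rw [mem_filter] at hv
                exact ind_of_not hv.2
              rw [e2, add_zero]
              calc ∑ v ∈ Vb.filter (fun v => v ∈ l), ind (v ∈ l) ≤
                    ∑ v ∈ Vb.filter (fun v => v ∈ l), (1 : ℝ) :=
                    sum_le_sum fun v _ => ind_le_one _
                _ ≤ _ := by
                    apply sum_le_sum_of_subset_of_nonneg
                    · intro v hv
                      rw [mem_filter] at hv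
                      exact List.mem_toFinset.2 hv.2
                    · intro _ _ _
                      norm_num
          _ = (l.toFinset.card : ℝ) := by simp
          _ ≤ (l.length : ℝ) := by exact_mod_cast l.toFinset_card_le
          _ ≤ k := by
              rw [hl]
              exact_mod_cast hlen.le
      rw [sum_sub_distrib] at h1
      have h3 := hq.2
      rw [hFsum] at h3
      linarith
    · rw [ind_of_not hq, mul_zero]
      exact sum_nonneg fun v _ => ind_nonneg _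
  have htot : (X - k) * (θ ^ j / 2 * vol Ws) ≤
      ∑ v ∈ Vb, isum Ws (fun l => ind (Clq G (!b) (v :: l))) := by
    rw [← isum_sum]
    have h1 := isum_mono_len Ws _ _ hext
    rw [isum_const_mul] at h1
    refine le_trans ?_ h1
    apply mul_le_mul_of_nonneg_left hgood
    -- X ≥ k
    rw [hX]
    have h2 : 8 * (k : ℝ) ^ 2 ≤ T := by
      rw [hT, le_div_iff₀ h2k]
      exact hN
    have h3 : 8 * (k : ℝ) ≤ T / k := by
      rw [le_div_iff₀ hkpos]
      nlinarith
    linarith
  -- pigeonhole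
  by_contra hcon
  push Not at hcon
  have h2 : 8 * (k : ℝ) ^ 2 ≤ T := by
    rw [hT, le_div_iff₀ h2k]
    exact hN
  have h3 : 8 * (k : ℝ) ≤ T / k := by
    rw [le_div_iff₀ hkpos]
    nlinarith
  have hθN : θ * N = 1 / 8 * (T / k) := by
    rw [hθ, ← hTN]
    field_simp
  have hne : 𝓡.Nonempty := by
    rw [nonempty_iff_ne_empty]
    intro hempty
    rw [hempty] at hcov
    simp only [sum_empty, mul_zero] at hcov
    have h4 : N ≤ M := by linarith
    nlinarith
  have h5 : ∑ v ∈ Vb, isum Ws (fun l => ind (Clq G (!b) (v :: l))) <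
      θ ^ j * θ * vol Ws * N := by
    rw [hVb, sum_biUnion (fun W hW W' hW' hne => hdis W hW W' hW' hne)]
    calc ∑ W ∈ 𝓡, ∑ v ∈ W, isum Ws (fun l => ind (Clq G (!b) (v :: l)))
        < ∑ W ∈ 𝓡, θ ^ j * θ * vol Ws * W.card := by
          apply sum_lt_sum_of_nonempty hne
          intro W hW
          have h6 := hcon W hW
          simp only [isum, vol, List.length_cons] at h6
          calc _ < _ := h6
            _ = _ := by rw [pow_succ]; ring
      _ = θ ^ j * θ * vol Ws * ∑ W ∈ 𝓡, (W.card : ℝ) := by rw [mul_sum]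
      _ ≤ θ ^ j * θ * vol Ws * N := by
          apply mul_le_mul_of_nonneg_left _ (by positivity)
          rw [← hVbcard, hNdef]
          exact_mod_cast card_le_univ Vb
  have h6 : θ ^ j * θ * vol Ws * N = θ ^ j * vol Ws * (1 / 8 * (T / k)) := by
    rw [← hθN]; ring
  rw [h6] at h5
  have h7 : (X - k) * (θ ^ j / 2 * vol Ws) = θ ^ j * vol Ws * ((X - k) / 2) := by ring
  rw [h7] at htot
  have h8 : θ ^ j * vol Ws * (1 / 8 * (T / k)) ≤ θ ^ j * vol Ws * ((X - k) / 2) := by
    apply mul_le_mul_of_nonneg_left _ (by positivity)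
    rw [hX]
    linarith
  linarith

/-- **Core theorem.** -/
theorem core (G : SimpleGraph V) {k : ℕ} (hk : 1 ≤ k) {δ : ℝ} (hδ : 0 < δ)
    (hδk : δ ≤ 1 / (8 * k))
    (hlog : 8 * k ^ 4 * 4 ^ k / δ ^ 2 ≤ Real.log (Fintype.card V)) :
    ∃ (b : Bool) (l : List V), l.length = k ∧ Clq G b l ∧
      (1 - δ) * (Fintype.card V / 2 ^ k) ≤ ∑ v, cprod (col G b) l v := by
  classical
  by_contra hcon
  have hno : ∀ (b : Bool) (l : List V), l.length = k → Clq G b l →
      ∑ v, cprod (col G b) l v < (1 - δ) * (Fintype.card V / 2 ^ k) := by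
    intro b l h1 h2
    by_contra h3
    exact hcon ⟨b, l, h1, h2, not_lt.1 h3⟩
  have hk0 : (1 : ℝ) ≤ k := by exact_mod_cast hk
  have hkpos : (0 : ℝ) < k := by linarith
  set N : ℝ := (Fintype.card V : ℝ) with hNdef
  set lam : ℝ := (δ / 2 ^ k) ^ 2 / (7 * k ^ 4) with hlam
  have hlampos : 0 < lam := by positivity
  set A : ℝ := k ^ 4 * 4 ^ k / δ ^ 2 with hA
  have hA1 : 1 / lam = 7 * A := by
    rw [hlam, hA]
    have e : (4 : ℝ) ^ k = 2 ^ k * 2 ^ k := by rw [← mul_pow]; norm_num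
    rw [e]
    field_simp
  have hA2 : 3 * (k : ℝ) ≤ A := by
    rw [hA, le_div_iff₀ (by positivity)]
    have h1 : δ ^ 2 ≤ (1 / (8 * k)) ^ 2 := pow_le_pow_left₀ hδ.le hδk 2
    have h2 : (1 / (8 * (k : ℝ))) ^ 2 ≤ 1 / 64 := by
      rw [div_pow, one_pow]
      apply one_div_le_one_div_of_le (by norm_num)
      nlinarith
    have h3 : (1 : ℝ) ≤ 4 ^ k := one_le_pow₀ (by norm_num)
    have h4 : (k : ℝ) ≤ k ^ 4 := by
      calc (k : ℝ) = k ^ 1 := (pow_one _).symm
        _ ≤ k ^ 4 := pow_le_pow_right₀ hk0 (by norm_num)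
    calc 3 * (k : ℝ) * δ ^ 2 ≤ 3 * k * (1 / 64) :=
          mul_le_mul_of_nonneg_left (h1.trans h2) (by positivity)
      _ ≤ k * 1 := by linarith
      _ ≤ k ^ 4 * 4 ^ k := mul_le_mul h4 h3 (by norm_num) (by positivity)
  have hlog' : 8 * A ≤ Real.log N := by
    refine le_trans (le_of_eq ?_) hlog
    rw [hA]; ring
  have hNpos : 0 < N := by
    have h1 : 0 < Real.log N := lt_of_lt_of_le (by positivity) hlog'
    by_contra h2
    have h3 : N = 0 := le_antisymm (not_lt.1 h2) (Nat.cast_nonneg _)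
    rw [h3, Real.log_zero] at h1
    exact lt_irrefl _ h1
  have hNexp : Real.exp (8 * A) ≤ N := by
    rwa [← Real.le_log_iff_exp_le hNpos]
  have h2k' : ∀ n : ℕ, 1 ≤ n → 2 * n ≤ 2 ^ n := by
    intro n hn
    induction n, hn using Nat.le_induction with
    | base => norm_num
    | succ n hn ih => rw [pow_succ]; omega
  have h2kR : 2 * (k : ℝ) ≤ 2 ^ k := by exact_mod_cast h2k' k hk
  have hexpA : 2 * (k : ℝ) * 9 ^ k ≤ Real.exp A := by
    have h1 : Real.exp (3 * k) = (Real.exp 3) ^ k := by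
      rw [← Real.exp_nat_mul]; ring_nf
    have h2 : (18 : ℝ) ≤ Real.exp 3 := by
      have h3 : Real.exp 3 = (Real.exp 1) ^ 3 := by
        rw [← Real.exp_nat_mul]; norm_num
      rw [h3]
      calc (18 : ℝ) ≤ (27 / 10) ^ 3 := by norm_num
        _ ≤ _ := pow_le_pow_left₀ (by norm_num) (by linarith [Real.exp_one_gt_d9]) 3
    calc 2 * (k : ℝ) * 9 ^ k ≤ 2 ^ k * 9 ^ k :=
          mul_le_mul_of_nonneg_right h2kR (by positivity)
      _ = 18 ^ k := by rw [← mul_pow]; norm_num
      _ ≤ (Real.exp 3) ^ k := pow_le_pow_left₀ (by norm_num) h2 k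
      _ = Real.exp (3 * k) := h1.symm
      _ ≤ Real.exp A := Real.exp_le_exp.2 hA2
  have hApos : 0 < A := by linarith
  have hN8 : 8 * (k : ℝ) ^ 2 * 2 ^ k ≤ N := by
    have h1 : 4 * (k : ℝ) ^ 2 ≤ 4 ^ k := by
      calc 4 * (k : ℝ) ^ 2 = (2 * k) ^ 2 := by ring
        _ ≤ (2 ^ k) ^ 2 := pow_le_pow_left₀ (by positivity) h2kR 2
        _ = 4 ^ k := by rw [← pow_mul, mul_comm, pow_mul]; norm_num
    calc 8 * (k : ℝ) ^ 2 * 2 ^ k = 2 * (4 * k ^ 2) * 2 ^ k := by ring
      _ ≤ 2 * 4 ^ k * 2 ^ k := by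
          apply mul_le_mul_of_nonneg_right _ (by positivity)
          linarith
      _ = 2 * 8 ^ k := by rw [mul_assoc, ← mul_pow]; norm_num
      _ ≤ 2 * k * 9 ^ k := by
          apply mul_le_mul _ _ (by positivity) (by positivity)
          · linarith
          · exact pow_le_pow_left₀ (by norm_num) (by norm_num) k
      _ ≤ Real.exp A := hexpA
      _ ≤ Real.exp (8 * A) := Real.exp_le_exp.2 (by linarith)
      _ ≤ N := hNexp
  set M : ℝ := 9 ^ k * Real.exp (1 / lam) with hMdef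
  have hM : 2 * k * M ≤ N := by
    calc 2 * (k : ℝ) * M = (2 * k * 9 ^ k) * Real.exp (7 * A) := by rw [hMdef, hA1]; ring
      _ ≤ Real.exp A * Real.exp (7 * A) :=
          mul_le_mul_of_nonneg_right hexpA (Real.exp_pos _).le
      _ = Real.exp (8 * A) := by rw [← Real.exp_add]; ring_nf
      _ ≤ N := hNexp
  -- the cover
  obtain ⟨𝓦, hW1, hW2, hW3⟩ := cover (col_nonneg G true) (col_le_one G true) hlampos (9 ^ k)
    _ (univ : Finset V) rfl
  have hstab : ∀ W ∈ 𝓦, ∀ b, Stab (col G b) lam W := by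
    intro W hW b
    cases b
    · exact (hW1 W hW).1.compl (col_add G true)
    · exact (hW1 W hW).1
  set 𝓡 : Bool → Finset (Finset V) := fun b =>
    𝓦.filter (fun W => ∑ v, dens (col G b) W v ^ k ≤ N / 2 ^ k) with h𝓡
  have hcov2 : ∑ W ∈ 𝓦, (W.card : ℝ) ≤
      ∑ W ∈ 𝓡 true, (W.card : ℝ) + ∑ W ∈ 𝓡 false, (W.card : ℝ) := by
    rw [h𝓡]
    simp only [sum_filter]
    rw [← sum_add_distrib]
    refine sum_le_sum fun W hW => ?_
    obtain ⟨b, hb⟩ := sparse hk hδ hlam hno (hstab W hW) (hW1 W hW).2.1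
    have h0 : (0 : ℝ) ≤ W.card := Nat.cast_nonneg _
    cases b
    · rw [if_pos hb]
      split_ifs <;> linarith
    · rw [if_pos hb]
      split_ifs <;> linarith
  have hcardU : ((univ : Finset V).card : ℝ) = N := by rw [card_univ]
  rw [hcardU] at hW3
  have hM' : ((9 ^ k : ℕ) : ℝ) * Real.exp (1 / lam) = M := by rw [hMdef]; push_cast; ring
  rw [hM'] at hW3
  obtain ⟨b, hb⟩ : ∃ b, N - M ≤ 2 * ∑ W ∈ 𝓡 b, (W.card : ℝ) := by
    by_contra hcon2
    push Not at hcon2
    have h1 := hcon2 true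
    have h2 := hcon2 false
    linarith
  have hind : ∀ j : ℕ, j ≤ k → ∃ Ws : List (Finset V), (∀ W ∈ Ws, W ∈ 𝓡 b) ∧ Ws.length = j ∧
      (1 / (8 * k * 2 ^ k) : ℝ) ^ Ws.length * vol Ws ≤
        isum Ws (fun l => ind (Clq G (!b) l)) := by
    intro j
    induction j with
    | zero =>
        intro _
        refine ⟨[], by simp, rfl, ?_⟩
        simp only [List.length_nil, pow_zero, vol, isum, mul_one]
        rw [ind_of (by simp [Clq])]
    | succ j ih =>
        intro hj
        obtain ⟨Ws, h1, h2, h3⟩ := ih (by omega)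
        obtain ⟨W, hW, h4⟩ := extend (𝓡 := 𝓡 b) hk hδ hδk hlam hN8
          (fun W hW => hstab W (mem_filter.1 hW).1 _)
          (fun W hW W' hW' hne => hW2 W (mem_filter.1 hW).1 W' (mem_filter.1 hW').1 hne)
          (fun W hW => (mem_filter.1 hW).2) hM hb Ws h1 (by omega) h3
        refine ⟨W :: Ws, ?_, by simp [h2], h4⟩
        intro X hX
        rcases List.mem_cons.1 hX with rfl | hX
        · exact hW
        · exact h1 X hX
  obtain ⟨Ws, h1, h2, h3⟩ := hind k le_rfl
  obtain ⟨l, hl1, hl2, hl3⟩ := peel (col_nonneg G (!b)) (col_le_one G (!b)) hlampos.le Ws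
    (Clq G (!b)) (fun _ => 1) ((1 / (8 * k * 2 ^ k) : ℝ) ^ Ws.length)
    (fun W hW => hstab W (mem_filter.1 (h1 W hW)).1 _)
    (fun _ => zero_le_one) (fun _ => le_rfl) (by positivity) h3
  have h4 := hno (!b) l (hl1.trans h2) hl2
  have h5 := err_le (j := Ws.length) hk h2.le hδ hNpos.le hlam (show Real.exp (-(5 * k ^ 2)) ≤
    (1 / (8 * k * 2 ^ k) : ℝ) ^ Ws.length by
      refine (theta_lb hk h2.le).trans ?_
      have : (0 : ℝ) ≤ (1 / (8 * k * 2 ^ k) : ℝ) ^ Ws.length := by positivity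
      linarith)
  have h6 := dprod_lower (c := col G b) (col_nonneg G (!b)) (col_le_one G (!b))
    (col_add G b) hk (F := fun _ => 1) (fun _ => zero_le_one) (fun _ => le_rfl) Ws
    (D := N / 2 ^ k)
    (fun W hW => ⟨(hstab W (mem_filter.1 (h1 W hW)).1 b).1, (mem_filter.1 (h1 W hW)).2⟩)
    h2.le
  have h7 : ∑ _v : V, (1 : ℝ) = N := by simp [hNdef]
  rw [h7, h2, div_self hkpos.ne', one_mul] at h6
  have h8 : ∑ v, (1 : ℝ) * cprod (col G (!b)) l v = ∑ v, cprod (col G (!b)) l v :=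
    sum_congr rfl fun v _ => one_mul _
  rw [h8] at hl3
  have h9 : 2 / 2 ^ k * N = 2 * (N / 2 ^ k) := by ring
  rw [h9] at h6
  linarith

end Pool.Agent.H68.Book
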