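import Mathlib
import Pool.Agent.H68.Book.Core
import Pool.Agent.H28.Ramsey.Basic

set_option autoImplicit false
set_option linter.unusedSectionVars false
set_option linter.unusedVariables false

/-!
Book Ramsey numbers, part 7: the theorem for graphs, book Ramsey numbers, Ramsey numbers.
-/

namespace Pool.Agent.H68.Book

open Finset

/-- The graph `G` contains a clique `S` with `k` vertices and a set `T` of at least `m` vertices,
disjoint from `S`, all of whose vertices are joined to all of `S`. -/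
def HasBook {V : Type} (G : SimpleGraph V) (k : ℕ) (m : ℝ) : Prop :=
  ∃ S T : Finset V, G.IsNClique k S ∧ Disjoint S T ∧ (∀ u ∈ S, ∀ v ∈ T, G.Adj u v) ∧ m ≤ #T

theorem book_general {V : Type} [Fintype V] (G : SimpleGraph V) {k : ℕ} (hk : 1 ≤ k) {ε : ℝ}
    (hε : 0 < ε) (hεk : ε ≤ 1 / (4 * k))
    (hlog : 32 * k ^ 4 * 4 ^ k / ε ^ 2 ≤ Real.log (Fintype.card V)) :
    HasBook G k ((1 - ε) * Fintype.card V / 2 ^ k) ∨
      HasBook Gᶜ k ((1 - ε) * Fintype.card V / 2 ^ k) := by
  classical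
  have hk0 : (1 : ℝ) ≤ k := by exact_mod_cast hk
  have hkpos : (0 : ℝ) < k := by linarith
  have hε1 : ε ≤ 1 := by
    refine hεk.trans ?_
    rw [div_le_one (by positivity)]
    linarith
  set N : ℝ := (Fintype.card V : ℝ) with hNdef
  obtain ⟨b, l, hl1, hl2, hl3⟩ := core G hk (δ := ε / 2) (by positivity)
    (by
      have : (1 : ℝ) / (8 * k) = 1 / (4 * k) / 2 := by field_simp; norm_num
      rw [this]
      linarith)
    (by
      refine le_trans (le_of_eq ?_) hlog
      field_simp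
      norm_num)
  -- size
  have hlogpos : 0 < Real.log N := lt_of_lt_of_le (by positivity) hlog
  have hNpos : 0 < N := by
    by_contra h2
    have h3 : N = 0 := le_antisymm (not_lt.1 h2) (Nat.cast_nonneg _)
    rw [h3, Real.log_zero] at hlogpos
    exact lt_irrefl _ hlogpos
  have hNbig : 2 * k * 2 ^ k / ε ≤ N := by
    have h1 : 32 * (k : ℝ) ^ 4 * 4 ^ k / ε ^ 2 ≤ N := by
      refine hlog.trans ?_
      have := Real.log_le_sub_one_of_pos hNpos
      linarith
    refine le_trans ?_ h1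
    rw [div_le_div_iff₀ hε (by positivity)]
    have h2 : ε ^ 2 ≤ ε := by nlinarith
    have h3 : (k : ℝ) ≤ k ^ 4 := by
      calc (k : ℝ) = k ^ 1 := (pow_one _).symm
        _ ≤ k ^ 4 := pow_le_pow_right₀ hk0 (by norm_num)
    have h4 : (2 : ℝ) ^ k ≤ 4 ^ k := pow_le_pow_left₀ (by norm_num) (by norm_num) k
    have h5 : 2 * (k : ℝ) * 2 ^ k ≤ 32 * k ^ 4 * 4 ^ k := by
      apply mul_le_mul _ h4 (by positivity) (by positivity)
      linarith [pow_pos hkpos 4]
    exact mul_le_mul h5 h2 (by positivity) (by positivity)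
  have hkN : (k : ℝ) ≤ ε / 2 * (N / 2 ^ k) := by
    rw [div_le_iff₀ hε] at hNbig
    have h2k : (0 : ℝ) < 2 ^ k := by positivity
    rw [div_mul_div_comm, le_div_iff₀ (by positivity)]
    linarith
  -- the list is nodup
  have hnodup : l.Nodup := by
    unfold Clq at hl2
    exact hl2.imp (fun h => h.1)
  set S : Finset V := l.toFinset with hS
  have hScard : #S = k := by rw [hS, List.toFinset_card_of_nodup hnodup, hl1]
  set H : SimpleGraph V := if b then G else Gᶜ with hH
  have hadj : ∀ u w, u ≠ w → ((b = true ↔ G.Adj u w) ↔ H.Adj u w) := by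
    intro u w huw
    cases b
    · rw [hH]
      simp [SimpleGraph.compl_adj, huw]
    · rw [hH]
      simp
  have hSclique : H.IsNClique k S := by
    rw [SimpleGraph.isNClique_iff]
    refine ⟨?_, hScard⟩
    intro u hu w hw huw
    rw [hS, mem_coe, List.mem_toFinset] at hu hw
    have h1 : ∀ x ∈ l, ∀ y ∈ l, x ≠ y → rl G b x y := by
      intro x hx y hy hxy
      have hsym : Std.Symm (rl G b) := ⟨fun x y h => rl_symm G b h⟩
      exact List.Pairwise.forall (R := rl G b) hl2 hx hy hxy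
    exact (hadj u w huw).1 (h1 u hu w hw huw).2
  set T : Finset V := univ.filter (fun v => v ∉ S ∧ ∀ u ∈ S, H.Adj u v) with hT
  have hbound : ∑ v, cprod (col G b) l v ≤ #T + #S := by
    have h1 : ∀ v, cprod (col G b) l v ≤ ind (v ∈ T) + ind (v ∈ S) := by
      intro v
      by_cases hvS : v ∈ S
      · rw [ind_of hvS]
        have := cprod_le_one (col_nonneg G b) (col_le_one G b) l v
        linarith [ind_nonneg (v ∈ T)]
      · by_cases hvT : v ∈ T
        · rw [ind_of hvT]
          have := cprod_le_one (col_nonneg G b) (col_le_one G b) l v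
          linarith [ind_nonneg (v ∈ S)]
        · have h2 : cprod (col G b) l v = 0 := by
            rw [hT, mem_filter] at hvT
            push Not at hvT
            obtain ⟨u, hu, hne⟩ := hvT (mem_univ _) hvS
            unfold cprod
            apply List.prod_eq_zero
            rw [List.mem_map]
            refine ⟨u, List.mem_toFinset.1 hu, ?_⟩
            unfold col
            apply ind_of_not
            intro h3
            have hvu : v ≠ u := fun h => hvS (h ▸ hu)
            exact hne ((hadj v u hvu).1 h3).symm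
          rw [h2]
          linarith [ind_nonneg (v ∈ S), ind_nonneg (v ∈ T)]
    have h2 : ∀ A : Finset V, ∑ v, ind (v ∈ A) = (#A : ℝ) := by
      intro A
      have h3 : ∀ v, ind (v ∈ A) = if v ∈ A then (1 : ℝ) else 0 := by
        intro v
        split_ifs with h
        · exact ind_of h
        · exact ind_of_not h
      simp only [h3]
      simp
    calc ∑ v, cprod (col G b) l v ≤ ∑ v, (ind (v ∈ T) + ind (v ∈ S)) :=
          sum_le_sum fun v _ => h1 v
      _ = #T + #S := by rw [sum_add_distrib, h2, h2]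
  have hTcard : (1 - ε) * N / 2 ^ k ≤ #T := by
    rw [hScard] at hbound
    have h2 : (1 - ε) * N / 2 ^ k = (1 - ε / 2) * (N / 2 ^ k) - ε / 2 * (N / 2 ^ k) := by ring
    rw [h2]
    linarith
  have hbook : HasBook H k ((1 - ε) * N / 2 ^ k) := by
    refine ⟨S, T, hSclique, ?_, ?_, hTcard⟩
    · rw [disjoint_left]
      intro v hvS hvT
      rw [hT, mem_filter] at hvT
      exact hvT.2.1 hvS
    · intro u hu v hv
      rw [hT, mem_filter] at hv
      exact hv.2.2 u hu
  cases b
  · right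
    rw [hH] at hbook
    simpa using hbook
  · left
    rw [hH] at hbook
    simpa using hbook

open Pool.Agent.H28.Ramsey

/-- The inequality for Ramsey numbers. -/
theorem ramsey_book {k a b : ℕ} (hk : 1 ≤ k) (ha : k < a) (hb : k < b) {ε : ℝ}
    (hε : 0 < ε) (hεk : ε ≤ 1 / (4 * k))
    (hlog : 33 * k ^ 4 * 4 ^ k / ε ^ 2 ≤ Real.log (ramsey a b)) :
    (1 - ε) * ramsey a b ≤ 2 ^ k * max (ramsey (a - k) b : ℝ) (ramsey a (b - k)) := by
  classical
  have hk0 : (1 : ℝ) ≤ k := by exact_mod_cast hk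
  have hkpos : (0 : ℝ) < k := by linarith
  have hε4 : ε ≤ 1 / 4 := by
    refine hεk.trans ?_
    apply one_div_le_one_div_of_le (by norm_num)
    linarith
  set X : ℝ := k ^ 4 * 4 ^ k / ε ^ 2 with hX
  have hX1 : 1 ≤ X := by
    rw [hX, le_div_iff₀ (by positivity), one_mul]
    have h1 : (1 : ℝ) ≤ k ^ 4 := one_le_pow₀ hk0
    have h2 : (1 : ℝ) ≤ 4 ^ k := one_le_pow₀ (by norm_num)
    have h3 : ε ^ 2 ≤ 1 := by nlinarith
    nlinarith
  have e33 : 33 * (k : ℝ) ^ 4 * 4 ^ k / ε ^ 2 = 33 * X := by rw [hX]; ring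
  have e32 : 32 * (k : ℝ) ^ 4 * 4 ^ k / ε ^ 2 = 32 * X := by rw [hX]; ring
  rw [e33] at hlog
  set R : ℝ := (ramsey a b : ℝ) with hR
  have hRpos : 0 < R := by
    rw [hR]
    exact_mod_cast ramsey_pos a b
  have hR2 : 2 ≤ R := by
    have := Real.log_le_sub_one_of_pos hRpos
    linarith
  have hRn : 2 ≤ ramsey a b := by
    rw [hR] at hR2
    exact_mod_cast hR2
  have hNR : ((ramsey a b - 1 : ℕ) : ℝ) = R - 1 := by
    rw [Nat.cast_sub (by omega)]
    simp [hR]
  obtain ⟨G, hG1, hG2⟩ := exists_extremal a b (by omega)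
  have hlogN : 32 * k ^ 4 * 4 ^ k / ε ^ 2 ≤
      Real.log (Fintype.card (Fin (ramsey a b - 1))) := by
    rw [Fintype.card_fin, hNR, e32]
    have h1 : Real.log (R / 2) ≤ Real.log (R - 1) :=
      Real.log_le_log (by positivity) (by linarith)
    rw [Real.log_div hRpos.ne' (by norm_num)] at h1
    have h2 := Real.log_two_lt_d9
    linarith
  have hkey : (1 - ε) * (R - 1) / 2 ^ k ≤
      max (ramsey (a - k) b : ℝ) (ramsey a (b - k)) - 1 := by
    rcases book_general G hk hε hεk hlogN with h | h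
    · obtain ⟨S, T, hS, hST, hadj, hT⟩ := h
      rw [Fintype.card_fin, hNR] at hT
      have h1 : #T < ramsey (a - k) b := by
        by_contra hcon
        push Not at hcon
        rcases arr_ramsey (a - k) b (Fin (ramsey a b - 1)) G T hcon with ⟨U, hU, hUc⟩ | ⟨U, hU, hUc⟩
        · have hdisj : Disjoint S U := hST.mono_right hU
          apply hG1 (S ∪ U)
          rw [SimpleGraph.isNClique_iff] at hS hUc ⊢
          refine ⟨?_, ?_⟩
          · rw [coe_union]
            intro x hx y hy hxy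
            rcases hx with hx | hx
            · rcases hy with hy | hy
              · exact hS.1 hx hy hxy
              · exact hadj x hx y (hU hy)
            · rcases hy with hy | hy
              · exact (hadj y hy x (hU hx)).symm
              · exact hUc.1 hx hy hxy
          · rw [card_union_of_disjoint hdisj, hS.2, hUc.2]
            omega
        · exact hG2 U hUc
      have h2 : (#T : ℝ) ≤ (ramsey (a - k) b : ℝ) - 1 := by
        have : #T + 1 ≤ ramsey (a - k) b := h1
        have h3 : (#T : ℝ) + 1 ≤ (ramsey (a - k) b : ℝ) := by exact_mod_cast this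
        linarith
      have h3 := le_max_left (ramsey (a - k) b : ℝ) (ramsey a (b - k))
      linarith
    · obtain ⟨S, T, hS, hST, hadj, hT⟩ := h
      rw [Fintype.card_fin, hNR] at hT
      have h1 : #T < ramsey a (b - k) := by
        by_contra hcon
        push Not at hcon
        rcases arr_ramsey a (b - k) (Fin (ramsey a b - 1)) G T hcon with ⟨U, hU, hUc⟩ | ⟨U, hU, hUc⟩
        · exact hG1 U hUc
        · have hdisj : Disjoint S U := hST.mono_right hU
          apply hG2 (S ∪ U)
          rw [SimpleGraph.isNClique_iff] at hS hUc ⊢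
          refine ⟨?_, ?_⟩
          · rw [coe_union]
            intro x hx y hy hxy
            rcases hx with hx | hx
            · rcases hy with hy | hy
              · exact hS.1 hx hy hxy
              · exact hadj x hx y (hU hy)
            · rcases hy with hy | hy
              · exact (hadj y hy x (hU hx)).symm
              · exact hUc.1 hx hy hxy
          · rw [card_union_of_disjoint hdisj, hS.2, hUc.2]
            omega
      have h2 : (#T : ℝ) ≤ (ramsey a (b - k) : ℝ) - 1 := by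
        have : #T + 1 ≤ ramsey a (b - k) := h1
        have h3 : (#T : ℝ) + 1 ≤ (ramsey a (b - k) : ℝ) := by exact_mod_cast this
        linarith
      have h3 := le_max_right (ramsey (a - k) b : ℝ) (ramsey a (b - k))
      linarith
  rw [div_le_iff₀ (by positivity)] at hkey
  have h2k : (1 : ℝ) ≤ 2 ^ k := one_le_pow₀ (by norm_num)
  nlinarith

lemma ramsey_comm_le (a b : ℕ) : ramsey a b ≤ ramsey b a := by
  apply Nat.sInf_le
  refine ⟨ramsey_pos b a, fun G => ?_⟩
  rcases (arr_ramsey b a).swap (Fin (ramsey b a)) G univ (by simp) with ⟨S, _, hS⟩ | ⟨S, _, hS⟩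
  · exact Or.inl ⟨S, hS⟩
  · exact Or.inr ⟨S, hS⟩

lemma ramsey_comm (a b : ℕ) : ramsey a b = ramsey b a :=
  le_antisymm (ramsey_comm_le a b) (ramsey_comm_le b a)

/-- The diagonal case. -/
theorem ramsey_diag {k l : ℕ} (hk : 1 ≤ k) {ε : ℝ} (hε : 0 < ε) (hεk : ε ≤ 1 / (4 * k))
    (hl : 100 * k ^ 4 * 4 ^ k / ε ^ 2 ≤ (l : ℝ)) :
    (1 - ε) * ramsey l l ≤ 2 ^ k * ramsey (l - k) l := by
  have hk0 : (1 : ℝ) ≤ k := by exact_mod_cast hk
  have hkpos : (0 : ℝ) < k := by linarith
  have hε4 : ε ≤ 1 / 4 := by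
    refine hεk.trans ?_
    apply one_div_le_one_div_of_le (by norm_num)
    linarith
  set X : ℝ := k ^ 4 * 4 ^ k / ε ^ 2 with hX
  have hXk : (k : ℝ) ≤ X := by
    rw [hX, le_div_iff₀ (by positivity)]
    have h1 : (k : ℝ) ≤ k ^ 4 := by
      calc (k : ℝ) = k ^ 1 := (pow_one _).symm
        _ ≤ k ^ 4 := pow_le_pow_right₀ hk0 (by norm_num)
    have h2 : (1 : ℝ) ≤ 4 ^ k := one_le_pow₀ (by norm_num)
    have h3 : ε ^ 2 ≤ 1 := by nlinarith
    exact mul_le_mul h1 (h3.trans h2) (by positivity) (by positivity)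
  have e100 : 100 * (k : ℝ) ^ 4 * 4 ^ k / ε ^ 2 = 100 * X := by rw [hX]; ring
  rw [e100] at hl
  have hkl : k < l := by
    have : (k : ℝ) < l := by linarith
    exact_mod_cast this
  have hl3 : 3 ≤ l := by
    have : (3 : ℝ) ≤ l := by linarith
    exact_mod_cast this
  have h1 := two_pow_le_ramsey l l l hl3 le_rfl le_rfl
  have hlog : 33 * k ^ 4 * 4 ^ k / ε ^ 2 ≤ Real.log (ramsey l l) := by
    have e33 : 33 * (k : ℝ) ^ 4 * 4 ^ k / ε ^ 2 = 33 * X := by rw [hX]; ring
    rw [e33]
    have h2 : Real.log ((2 : ℝ) ^ ((l - 1) / 2)) ≤ Real.log (ramsey l l) := by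
      apply Real.log_le_log (by positivity)
      exact_mod_cast h1.le
    rw [Real.log_pow] at h2
    have h3 : ((l : ℝ) - 2) / 2 ≤ (((l - 1) / 2 : ℕ) : ℝ) := by
      have h4 : l ≤ 2 * ((l - 1) / 2) + 2 := by omega
      have h5 : (l : ℝ) ≤ 2 * (((l - 1) / 2 : ℕ) : ℝ) + 2 := by exact_mod_cast h4
      linarith
    have h6 := Real.log_two_gt_d9
    have h7 : ((l : ℝ) - 2) / 2 * (69 / 100) ≤ (((l - 1) / 2 : ℕ) : ℝ) * Real.log 2 := by
      apply mul_le_mul h3 (by linarith) (by norm_num) (Nat.cast_nonneg _)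
    linarith
  have h2 := ramsey_book hk hkl hkl hε hεk hlog
  rw [ramsey_comm l (l - k), max_self] at h2
  exact h2

/-- The Ramsey number of the book with `n` pages and a spine of `k` vertices. -/
noncomputable def bookRamsey (k n : ℕ) : ℕ :=
  sInf {N | 0 < N ∧ ∀ G : SimpleGraph (Fin N), HasBook G k n ∨ HasBook Gᶜ k n}

theorem bookRamsey_le {k n : ℕ} (hk : 1 ≤ k) (hn : 520 * k ^ 6 * 4 ^ k ≤ Real.log n) :
    (∀ G : SimpleGraph (Fin ⌊(2 ^ k + 12 * k ^ 2 * 4 ^ k / Real.sqrt (Real.log n)) * n⌋₊),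
      HasBook G k n ∨ HasBook Gᶜ k n) ∧
    (bookRamsey k n : ℝ) ≤ (2 ^ k + 12 * k ^ 2 * 4 ^ k / Real.sqrt (Real.log n)) * n := by
  have hk0 : (1 : ℝ) ≤ k := by exact_mod_cast hk
  have hkpos : (0 : ℝ) < k := by linarith
  have h6 : (1 : ℝ) ≤ k ^ 6 := one_le_pow₀ hk0
  have h4 : (4 : ℝ) ≤ 4 ^ k := by
    calc (4 : ℝ) = 4 ^ 1 := by norm_num
      _ ≤ 4 ^ k := pow_le_pow_right₀ (by norm_num) hk
  have hlog520 : 520 ≤ Real.log n := by nlinarith
  have hnpos : (0 : ℝ) < n := by
    rcases Nat.eq_zero_or_pos n with rfl | h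
    · simp at hlog520
      linarith
    · exact_mod_cast h
  set L : ℝ := Real.log n with hL
  set s : ℝ := Real.sqrt L with hs
  have hspos : 0 < s := Real.sqrt_pos.2 (by linarith)
  have hss : s ^ 2 = L := Real.sq_sqrt (by linarith)
  have hLn : L ≤ n := by
    have := Real.log_le_sub_one_of_pos hnpos
    linarith
  have h2k : (2 : ℝ) ≤ 2 ^ k := by
    calc (2 : ℝ) = 2 ^ 1 := by norm_num
      _ ≤ 2 ^ k := pow_le_pow_right₀ (by norm_num) hk
  have e4 : (4 : ℝ) ^ k = 2 ^ k * 2 ^ k := by rw [← mul_pow]; norm_num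
  have hsbig : 228 / 10 * k ^ 3 * 2 ^ k ≤ s := by
    rw [hs]
    apply Real.le_sqrt_of_sq_le
    refine le_trans ?_ hn
    rw [e4]
    have : (228 / 10 * (k : ℝ) ^ 3 * 2 ^ k) ^ 2 = (228 / 10) ^ 2 * k ^ 6 * (2 ^ k * 2 ^ k) := by
      ring
    rw [this]
    apply mul_le_mul_of_nonneg_right _ (by positivity)
    apply mul_le_mul_of_nonneg_right _ (by positivity)
    norm_num
  set ε : ℝ := 57 / 10 * k ^ 2 * 2 ^ k / s with hε
  have hεpos : 0 < ε := by positivity
  have hεk : ε ≤ 1 / (4 * k) := by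
    rw [hε, div_le_div_iff₀ hspos (by positivity)]
    linarith
  have hε4 : ε ≤ 1 / 4 := by
    refine hεk.trans ?_
    apply one_div_le_one_div_of_le (by norm_num)
    linarith
  set Y : ℝ := (2 ^ k + 12 * k ^ 2 * 4 ^ k / s) * n with hY
  have hYe : Y = 2 ^ k * (1 + 120 / 57 * ε) * n := by
    rw [hY, hε, e4]
    field_simp
    ring
  have hYpos : 0 < Y := by positivity
  have hnε : 1 ≤ ε * n := by
    have h1 : s ≤ n := by nlinarith
    rw [hε, div_mul_eq_mul_div, le_div_iff₀ hspos, one_mul]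
    have h2 : (1 : ℝ) ≤ 57 / 10 * k ^ 2 * 2 ^ k := by
      have : (1 : ℝ) ≤ k ^ 2 := one_le_pow₀ hk0
      nlinarith
    nlinarith
  set N : ℕ := ⌊Y⌋₊ with hN
  have hNle : (N : ℝ) ≤ Y := Nat.floor_le hYpos.le
  have hNge : Y - 1 ≤ N := (Nat.sub_one_lt_floor Y).le
  have hpages : (n : ℝ) ≤ (1 - ε) * N / 2 ^ k := by
    rw [le_div_iff₀ (by positivity)]
    have h1 : (1 - ε) * (Y - 1) ≤ (1 - ε) * N :=
      mul_le_mul_of_nonneg_left hNge (by linarith)
    refine le_trans ?_ h1
    rw [hYe]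
    have h2 : (1 - ε) * (1 + 120 / 57 * ε) ≥ 1 + ε / 2 := by nlinarith
    have h3 : (1 - ε) * (2 ^ k * (1 + 120 / 57 * ε) * n - 1) =
        2 ^ k * n * ((1 - ε) * (1 + 120 / 57 * ε)) - (1 - ε) := by ring
    rw [h3]
    have h4 : 2 ^ k * n * (1 + ε / 2) ≤ 2 ^ k * n * ((1 - ε) * (1 + 120 / 57 * ε)) :=
      mul_le_mul_of_nonneg_left h2 (by positivity)
    have h5 : 1 ≤ 2 ^ k * n * (ε / 2) := by
      have h7 : 2 * (ε * n / 2) ≤ 2 ^ k * (ε * n / 2) :=
        mul_le_mul_of_nonneg_right h2k (by positivity)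
      nlinarith
    nlinarith
  have hnN : (n : ℝ) ≤ N := by
    have h1 : (1 - ε) * N / 2 ^ k ≤ N := by
      rw [div_le_iff₀ (by positivity)]
      have h0 : (0 : ℝ) ≤ N := Nat.cast_nonneg _
      nlinarith
    linarith
  have hall : ∀ G : SimpleGraph (Fin N), HasBook G k n ∨ HasBook Gᶜ k n := by
    intro G
    have hlog : 32 * k ^ 4 * 4 ^ k / ε ^ 2 ≤ Real.log (Fintype.card (Fin N)) := by
      rw [Fintype.card_fin]
      have h1 : L ≤ Real.log N := Real.log_le_log hnpos hnN
      refine le_trans ?_ h1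
      have h2 : 32 * (k : ℝ) ^ 4 * 4 ^ k / ε ^ 2 = 32 / (57 / 10) ^ 2 * s ^ 2 := by
        rw [hε, e4]
        field_simp
      rw [h2, hss]
      nlinarith
    rcases book_general G hk hεpos hεk hlog with ⟨S, T, a, b, c, d⟩ | ⟨S, T, a, b, c, d⟩
    · left
      refine ⟨S, T, a, b, c, ?_⟩
      rw [Fintype.card_fin] at d
      exact hpages.trans d
    · right
      refine ⟨S, T, a, b, c, ?_⟩
      rw [Fintype.card_fin] at d
      exact hpages.trans d
  refine ⟨hall, ?_⟩
  have hNpos : 0 < N := by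
    have : (0 : ℝ) < N := by linarith
    exact_mod_cast this
  have h1 : bookRamsey k n ≤ N := Nat.sInf_le ⟨hNpos, hall⟩
  have h2 : (bookRamsey k n : ℝ) ≤ N := by exact_mod_cast h1
  linarith

end Pool.Agent.H68.Book
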